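import Mathlib

/-!
# Lifts of orientation-preserving homeomorphisms of the circle
-/

set_option autoImplicit false

namespace Pool.Agent.K6.H58.CA

open Filter Topology Set

/-- The circle `ℝ / ℤ`. -/
abbrev S1 : Type := UnitAddCircle

/-- `F` is a lift of `g`. -/
def IsLift (g : Equiv.Perm S1) (F : ℝ ≃o ℝ) : Prop :=
  (∀ x, F (x + 1) = F x + 1) ∧ ∀ x : ℝ, g (x : S1) = (F x : S1)

theorem coe_eq_iff {x y : ℝ} : (x : S1) = (y : S1) ↔ ∃ n : ℤ, y = x + n := by
  rw [eq_comm, ← sub_eq_zero, ← AddCircle.coe_sub, AddCircle.coe_eq_zero_iff]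
  constructor
  · rintro ⟨n, hn⟩
    refine ⟨n, ?_⟩
    rw [zsmul_eq_mul, mul_one] at hn
    linarith
  · rintro ⟨n, hn⟩
    refine ⟨n, ?_⟩
    rw [zsmul_eq_mul, mul_one]
    linarith

theorem coe_add_int (x : ℝ) (n : ℤ) : ((x + n : ℝ) : S1) = x := by
  rw [coe_eq_iff]
  exact ⟨-n, by push_cast; ring⟩

theorem exists_rep (q : S1) (a : ℝ) : ∃ x : ℝ, a ≤ x ∧ x < a + 1 ∧ (x : S1) = q := by
  obtain ⟨y, rfl⟩ := QuotientAddGroup.mk_surjective q
  refine ⟨y - ⌊y - a⌋, ?_, ?_, ?_⟩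
  · have := Int.floor_le (y - a)
    linarith
  · have := Int.lt_floor_add_one (y - a)
    linarith
  · have h := coe_add_int y (-⌊y - a⌋)
    rw [Int.cast_neg, ← sub_eq_add_neg] at h
    exact h

theorem per_int {F : ℝ ≃o ℝ} (h : ∀ x, F (x + 1) = F x + 1) (x : ℝ) (n : ℤ) :
    F (x + n) = F x + n := by
  induction n using Int.induction_on with
  | zero => simp
  | succ n ih =>
    push_cast at ih ⊢
    rw [← add_assoc, h, ih]
    ring
  | pred n ih =>
    push_cast at ih ⊢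
    have h1 := h (x + (-(n : ℝ) - 1))
    have h2 : x + (-(n : ℝ) - 1) + 1 = x + -n := by ring
    rw [h2, ih] at h1
    linarith

/-- translation by an integer -/
noncomputable def tr (n : ℤ) : ℝ ≃o ℝ := OrderIso.addRight (n : ℝ)

@[simp] theorem tr_apply (n : ℤ) (x : ℝ) : tr n x = x + n := rfl

theorem IsLift.one : IsLift 1 1 := ⟨fun _ => rfl, fun _ => rfl⟩

theorem IsLift.mul {g h : Equiv.Perm S1} {F H : ℝ ≃o ℝ} (hg : IsLift g F) (hh : IsLift h H) :
    IsLift (g * h) (F * H) := by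
  refine ⟨fun x => ?_, fun x => ?_⟩
  · show F (H (x + 1)) = F (H x) + 1
    rw [hh.1, hg.1]
  · show g (h x) = ((F (H x) : ℝ) : S1)
    rw [hh.2, hg.2]

theorem IsLift.inv {g : Equiv.Perm S1} {F : ℝ ≃o ℝ} (hg : IsLift g F) : IsLift g⁻¹ F⁻¹ := by
  refine ⟨fun x => ?_, fun x => ?_⟩
  · show F.symm (x + 1) = F.symm x + 1
    rw [F.symm_apply_eq, hg.1, F.apply_symm_apply]
  · show g.symm x = ((F.symm x : ℝ) : S1)
    rw [g.symm_apply_eq, hg.2, F.apply_symm_apply]

theorem IsLift.pow {g : Equiv.Perm S1} {F : ℝ ≃o ℝ} (hg : IsLift g F) (n : ℕ) :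
    IsLift (g ^ n) (F ^ n) := by
  induction n with
  | zero => simpa using IsLift.one
  | succ n ih => rw [pow_succ, pow_succ]; exact ih.mul hg

theorem IsLift.tr {g : Equiv.Perm S1} {F : ℝ ≃o ℝ} (hg : IsLift g F) (n : ℤ) :
    IsLift g (CA.tr n * F) := by
  refine ⟨fun x => ?_, fun x => ?_⟩
  · show F (x + 1) + n = F x + n + 1
    rw [hg.1]; ring
  · show g x = ((F x + n : ℝ) : S1)
    rw [coe_add_int]; exact hg.2 x

/-- a lift which fixes `p` -/
theorem IsLift.fixing {g : Equiv.Perm S1} {F : ℝ ≃o ℝ} (hg : IsLift g F) {p : ℝ}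
    (hp : g (p : S1) = p) : ∃ (n : ℤ), (CA.tr n * F) p = p := by
  have h1 := hg.2 p
  rw [hp] at h1
  obtain ⟨n, hn⟩ := coe_eq_iff.1 h1
  refine ⟨-n, ?_⟩
  show F p + ((-n : ℤ) : ℝ) = p
  rw [hn]; push_cast; ring

theorem lift_maps_Ico {F : ℝ ≃o ℝ} (h : ∀ x, F (x + 1) = F x + 1) {p : ℝ} (hp : F p = p)
    {x : ℝ} (hx : p ≤ x) (hx1 : x < p + 1) : p ≤ F x ∧ F x < p + 1 := by
  refine ⟨?_, ?_⟩
  · rw [← hp]
    exact F.monotone hx
  · have h1 := F.strictMono hx1
    rw [h, hp] at h1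
    exact h1

/-- on the circle two lifts which fix the same point agree -/
theorem IsLift.unique {g : Equiv.Perm S1} {F G : ℝ ≃o ℝ} (hF : IsLift g F) (hG : IsLift g G)
    {p : ℝ} (hFp : F p = p) (hGp : G p = p) : F = G := by
  have h0 : ∀ x, p ≤ x → x < p + 1 → F x = G x := by
    intro x hx hx1
    obtain ⟨h1, h2⟩ := lift_maps_Ico hF.1 hFp hx hx1
    obtain ⟨h3, h4⟩ := lift_maps_Ico hG.1 hGp hx hx1
    have h5 : ((F x : ℝ) : S1) = (G x : ℝ) := by rw [← hF.2, ← hG.2]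
    obtain ⟨n, hn⟩ := coe_eq_iff.1 h5
    have h6 : (n : ℝ) < 1 := by linarith
    have h7 : (-1 : ℝ) < n := by linarith
    have h8 : n < 1 := by exact_mod_cast h6
    have h9 : -1 < n := by exact_mod_cast h7
    have h10 : n = 0 := by omega
    rw [hn, h10]; simp
  ext x
  have h1 := Int.floor_le (x - p)
  have h2 := Int.lt_floor_add_one (x - p)
  have h3 := h0 (x - ⌊x - p⌋) (by linarith) (by linarith)
  have h4 := per_int hF.1 (x - ⌊x - p⌋) ⌊x - p⌋
  have h5 := per_int hG.1 (x - ⌊x - p⌋) ⌊x - p⌋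
  rw [sub_add_cancel] at h4 h5
  rw [h4, h5, h3]

/-- if a lift fixes a point then the other fixed points on the circle are fixed by the lift -/
theorem IsLift.fix_of_fix {g : Equiv.Perm S1} {F : ℝ ≃o ℝ} (hF : IsLift g F) {p x : ℝ}
    (hFp : F p = p) (hx : g (x : S1) = x) : F x = x := by
  have h1 := Int.floor_le (x - p)
  have h2 := Int.lt_floor_add_one (x - p)
  obtain ⟨h3, h4⟩ := lift_maps_Ico hF.1 hFp (x := x - ⌊x - p⌋) (by linarith) (by linarith)
  have h5 := per_int hF.1 (x - ⌊x - p⌋) ⌊x - p⌋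
  rw [sub_add_cancel] at h5
  have h6 := hF.2 x
  rw [hx] at h6
  obtain ⟨n, hn⟩ := coe_eq_iff.1 h6
  have h7 : (n : ℝ) < 1 := by linarith
  have h8 : (-1 : ℝ) < n := by linarith
  have h9 : n < 1 := by exact_mod_cast h7
  have h10 : -1 < n := by exact_mod_cast h8
  have h11 : n = 0 := by omega
  rw [hn, h11]; simp

theorem IsLift.fix_coe {g : Equiv.Perm S1} {F : ℝ ≃o ℝ} (hF : IsLift g F) {x : ℝ}
    (hx : F x = x) : g (x : S1) = x := by rw [hF.2, hx]

theorem eq_one_of_lift_one {g : Equiv.Perm S1} (h : IsLift g 1) : g = 1 := by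
  ext q
  obtain ⟨x, -, -, rfl⟩ := exists_rep q 0
  rw [h.2]
  rfl

/-- powers of an order isomorphism: monotone iteration -/
theorem lt_pow_of_lt {F : ℝ ≃o ℝ} {x : ℝ} (h : x < F x) {n : ℕ} (hn : 0 < n) :
    x < (F ^ n) x := by
  induction n with
  | zero => omega
  | succ n ih =>
    rcases Nat.eq_zero_or_pos n with h0 | h0
    · subst h0; simpa using h
    · rw [pow_succ']
      show x < F ((F ^ n) x)
      exact h.trans (F.strictMono (ih h0))

theorem pow_lt_of_lt {F : ℝ ≃o ℝ} {x : ℝ} (h : F x < x) {n : ℕ} (hn : 0 < n) :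
    (F ^ n) x < x := by
  induction n with
  | zero => omega
  | succ n ih =>
    rcases Nat.eq_zero_or_pos n with h0 | h0
    · subst h0; simpa using h
    · rw [pow_succ']
      show F ((F ^ n) x) < x
      exact (F.strictMono (ih h0)).trans h

theorem fix_of_pow {F : ℝ ≃o ℝ} {x : ℝ} {n : ℕ} (hn : 0 < n) (h : (F ^ n) x = x) : F x = x := by
  rcases lt_trichotomy (F x) x with h1 | h1 | h1
  · exact absurd h (pow_lt_of_lt h1 hn).ne
  · exact h1
  · exact absurd h (lt_pow_of_lt h1 hn).ne'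

theorem pow_fix {F : ℝ ≃o ℝ} {x : ℝ} (h : F x = x) (n : ℕ) : (F ^ n) x = x := by
  induction n with
  | zero => rfl
  | succ n ih =>
    rw [pow_succ']
    show F ((F ^ n) x) = x
    rw [ih, h]

theorem perm_pow_fix {g : Equiv.Perm S1} {x : S1} (h : g x = x) (n : ℕ) : (g ^ n) x = x := by
  induction n with
  | zero => rfl
  | succ n ih =>
    rw [pow_succ']
    show g ((g ^ n) x) = x
    rw [ih, h]

/-- The set of fixed points. -/
def Fix (g : Equiv.Perm S1) : Set S1 := {q | g q = q}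

/-- the fixed points of the powers of `g`, if `g` has a fixed point -/
theorem fix_pow {g : Equiv.Perm S1} {F : ℝ ≃o ℝ} (hF : IsLift g F) (hne : (Fix g).Nonempty)
    {n : ℕ} (hn : 0 < n) : Fix (g ^ n) = Fix g := by
  obtain ⟨q, hq⟩ := hne
  obtain ⟨p, -, -, rfl⟩ := exists_rep q 0
  obtain ⟨m, hm⟩ := hF.fixing hq
  have hL := hF.tr m
  set L := CA.tr m * F
  ext y
  refine ⟨fun hy => ?_, fun hy => perm_pow_fix hy n⟩
  obtain ⟨x, -, -, rfl⟩ := exists_rep y 0
  have h1 := (hL.pow n).fix_of_fix (pow_fix hm n) hy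
  exact hL.fix_coe (fix_of_pow hn h1)

/-- a torsion element with a fixed point is trivial -/
theorem eq_one_of_torsion {g : Equiv.Perm S1} {F : ℝ ≃o ℝ} (hF : IsLift g F)
    (hne : (Fix g).Nonempty) {n : ℕ} (hn : 0 < n) (h : g ^ n = 1) : g = 1 := by
  have h1 := fix_pow hF hne hn
  ext q
  have h2 : q ∈ Fix (g ^ n) := by rw [h]; rfl
  rw [h1] at h2
  exact h2

end Pool.Agent.K6.H58.CA
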