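import Mathlib

/-!
# Commutative images of finitely generated groups without subgroups of finite index
-/

set_option autoImplicit false

namespace Pool.Agent.K6.H58.CA

theorem comm_trivial {B : Type*} [CommGroup B] [Group.FG B]
    (hno : ∀ H : Subgroup B, H.FiniteIndex → H = ⊤) (b : B) : b = 1 := by
  have htriv : ∀ m : ℕ, 0 < m → ∀ x : B, ∃ y, y ^ m = x := by
    intro m hm x
    set P : Subgroup B := (powMonoidHom m : B →* B).range with hP
    have h1 : Finite (B ⧸ P) := by
      apply CommGroup.finite_of_fg_isMulTorsion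
      intro q
      obtain ⟨y, rfl⟩ := QuotientGroup.mk_surjective q
      rw [isOfFinOrder_iff_pow_eq_one]
      refine ⟨m, hm, ?_⟩
      rw [← QuotientGroup.mk_pow, QuotientGroup.eq_one_iff]
      exact ⟨y, rfl⟩
    have h2 : P.FiniteIndex := Subgroup.finiteIndex_of_finite_quotient
    have h3 := hno P h2
    have h4 : x ∈ P := by rw [h3]; trivial
    exact h4
  have hfin : Module.Finite ℤ (Additive B) := by
    rw [Module.Finite.iff_addGroup_fg]
    infer_instance
  obtain ⟨r, hr, hr2⟩ := Submodule.exists_sub_one_mem_and_smul_eq_zero_of_fg_of_le_smul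
    (Ideal.span {(2 : ℤ)}) (⊤ : Submodule ℤ (Additive B)) hfin.fg_top (by
      intro x _
      obtain ⟨y, hy⟩ := htriv 2 two_pos (Additive.toMul x)
      have h1 : x = (2 : ℤ) • (Additive.ofMul y) := by
        apply Additive.toMul.injective
        rw [← hy]
        exact (zpow_ofNat y 2).symm
      rw [h1]
      exact Submodule.smul_mem_smul (Ideal.mem_span_singleton_self _) trivial)
  have hr0 : r ≠ 0 := by
    rintro rfl
    rw [Ideal.mem_span_singleton] at hr
    omega
  obtain ⟨y, hy⟩ := htriv r.natAbs (Int.natAbs_pos.2 hr0) b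
  have h1 : r • (Additive.ofMul y) = 0 := hr2 _ trivial
  have h2 : y ^ r = 1 := h1
  rw [← hy]
  rcases Int.natAbs_eq r with h | h
  · rw [h, zpow_natCast] at h2
    exact h2
  · rw [h, zpow_neg, zpow_natCast, inv_eq_one] at h2
    exact h2

/-- a homomorphism with a commutative image -/
theorem comm_image_trivial {K G : Type*} [Group K] [Group.FG K] [Group G]
    (hno : ∀ H : Subgroup K, H.FiniteIndex → H = ⊤) (f : K →* G)
    (hcomm : ∀ a b, f a * f b = f b * f a) (k : K) : f k = 1 := by
  let i : CommGroup f.range :=
    { (inferInstance : Group f.range) with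
      mul_comm := by
        rintro ⟨_, a, rfl⟩ ⟨_, b, rfl⟩
        exact Subtype.ext (hcomm a b) }
  have hfg : Group.FG f.range := Group.fg_range f
  have h1 := @comm_trivial f.range i hfg (fun H hH => by
    have h2 : (H.comap f.rangeRestrict).FiniteIndex := by
      constructor
      rw [Subgroup.index_comap_of_surjective _ f.rangeRestrict_surjective]
      exact hH.index_ne_zero
    have h3 := hno _ h2
    rw [eq_top_iff]
    rintro x -
    obtain ⟨y, rfl⟩ := f.rangeRestrict_surjective x
    have h4 : y ∈ H.comap f.rangeRestrict := by rw [h3]; trivial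
    exact h4) ⟨f k, k, rfl⟩
  exact congrArg Subtype.val h1

end Pool.Agent.K6.H58.CA
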