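import Pool.Agent.K6.H58.CA.Base

/-!
# Groups acting freely on the circle are abelian
-/

set_option autoImplicit false

namespace Pool.Agent.K6.H58.CA

open Filter Topology Set

/-- the lift as a `CircleDeg1Lift` -/
def cd (F : ℝ ≃o ℝ) (h : ∀ x, F (x + 1) = F x + 1) : CircleDeg1Lift := ⟨⟨F, F.monotone⟩, h⟩

theorem cd_apply (F : ℝ ≃o ℝ) (h : ∀ x, F (x + 1) = F x + 1) (x : ℝ) : cd F h x = F x := rfl

theorem cd_mul {F G : ℝ ≃o ℝ} (hF : ∀ x, F (x + 1) = F x + 1) (hG : ∀ x, G (x + 1) = G x + 1)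
    (hFG : ∀ x, (F * G) (x + 1) = (F * G) x + 1) : cd (F * G) hFG = cd F hF * cd G hG := by
  ext x; rfl

section tau

variable {f g : CircleDeg1Lift}

theorem L1 (h : ∀ x, f (g x) ≤ g (f x)) (n : ℕ) (x : ℝ) : (f ^ n) (g x) ≤ g ((f ^ n) x) := by
  induction n with
  | zero => simp
  | succ n ih =>
    rw [pow_succ']
    show f ((f ^ n) (g x)) ≤ g (f ((f ^ n) x))
    exact (f.monotone ih).trans (h _)

theorem L1' (h : ∀ x, f (g x) ≤ g (f x)) (n : ℕ) (x : ℝ) : f ((g ^ n) x) ≤ (g ^ n) (f x) := by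
  induction n with
  | zero => simp
  | succ n ih =>
    rw [pow_succ']
    show f (g ((g ^ n) x)) ≤ g ((g ^ n) (f x))
    exact (h _).trans (g.monotone ih)

theorem L2 (h : ∀ x, f (g x) ≤ g (f x)) (n : ℕ) : f ^ n * g ^ n ≤ (f * g) ^ n := by
  induction n with
  | zero => simp
  | succ n ih =>
    intro x
    have h1 : ((f * g) ^ (n + 1)) x = f (g (((f * g) ^ n) x)) := by rw [pow_succ']; rfl
    have h2 : (f ^ (n + 1) * g ^ (n + 1)) x = f ((f ^ n) (g ((g ^ n) x))) := by
      rw [pow_succ', pow_succ']; rfl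
    rw [h1, h2]
    apply f.monotone
    refine (L1 h n _).trans (g.monotone ?_)
    exact ih x

theorem L3 (h : ∀ x, f (g x) ≤ g (f x)) (n : ℕ) : (g * f) ^ n ≤ g ^ n * f ^ n := by
  induction n with
  | zero => simp
  | succ n ih =>
    intro x
    have h1 : ((g * f) ^ (n + 1)) x = g (f (((g * f) ^ n) x)) := by rw [pow_succ']; rfl
    have h2 : (g ^ (n + 1) * f ^ (n + 1)) x = g ((g ^ n) (f ((f ^ n) x))) := by
      rw [pow_succ', pow_succ']; rfl
    rw [h1, h2]
    apply g.monotone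
    refine le_trans (f.monotone (ih x)) ?_
    exact L1' h n _

theorem tau_quasi (f g : CircleDeg1Lift) (n : ℕ) :
    |(f ^ n * g ^ n).translationNumber - n * (f.translationNumber + g.translationNumber)| ≤ 4 := by
  have h1 := (f ^ n * g ^ n).dist_map_zero_translationNumber_le
  have h2 := (f ^ n).dist_map_zero_translationNumber_le
  have h3 := (g ^ n).dist_map_zero_translationNumber_le
  have h4 := (f ^ n).dist_map_map_zero_lt (g ^ n)
  rw [CircleDeg1Lift.translationNumber_pow] at h2 h3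
  rw [CircleDeg1Lift.mul_apply] at h1
  rw [Real.dist_eq, abs_le] at h1 h2 h3
  rw [Real.dist_eq, abs_lt] at h4
  rw [abs_le]
  constructor <;> linarith [h1.1, h1.2, h2.1, h2.2, h3.1, h3.2, h4.1, h4.2]

theorem tau_comm (f g : CircleDeg1Lift) :
    (f * g).translationNumber = (g * f).translationNumber := by
  refine (CircleDeg1Lift.translationNumber_eq_of_semiconjBy (f := f) ?_).symm
  show f * (g * f) = (f * g) * f
  rw [mul_assoc]

theorem tau_mul (h : ∀ x, f (g x) ≤ g (f x)) :
    (f * g).translationNumber = f.translationNumber + g.translationNumber := by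
  set a := (f * g).translationNumber with ha
  set b := f.translationNumber + g.translationNumber with hb
  have h1 : ∀ n : ℕ, n * b - 4 ≤ n * a := by
    intro n
    have h2 := CircleDeg1Lift.translationNumber_mono (L2 h n)
    rw [CircleDeg1Lift.translationNumber_pow] at h2
    have h3 := (abs_le.1 (tau_quasi f g n)).1
    linarith
  have h2 : ∀ n : ℕ, n * a ≤ n * b + 4 := by
    intro n
    have h2 := CircleDeg1Lift.translationNumber_mono (L3 h n)
    rw [CircleDeg1Lift.translationNumber_pow, ← tau_comm f g] at h2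
    have h3 := (abs_le.1 (tau_quasi g f n)).2
    rw [add_comm g.translationNumber] at h3
    linarith
  apply le_antisymm
  · by_contra hcon
    push Not at hcon
    obtain ⟨n, hn⟩ := exists_nat_gt (4 / (a - b))
    rw [div_lt_iff₀ (by linarith)] at hn
    have := h2 n
    linarith [mul_sub (n : ℝ) a b]
  · by_contra hcon
    push Not at hcon
    obtain ⟨n, hn⟩ := exists_nat_gt (4 / (b - a))
    rw [div_lt_iff₀ (by linarith)] at hn
    have := h1 n
    linarith [mul_sub (n : ℝ) b a]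

theorem tau_mul' (h : (∀ x, f (g x) ≤ g (f x)) ∨ ∀ x, g (f x) ≤ f (g x)) :
    (f * g).translationNumber = f.translationNumber + g.translationNumber := by
  rcases h with h | h
  · exact tau_mul h
  · rw [tau_comm, tau_mul h, add_comm]

end tau

variable {K : Type*} [Group K] {φ : K →* Equiv.Perm S1}

theorem lift_eq_one (hfree : ∀ k, (Fix (φ k)).Nonempty → φ k = 1) {k : K} {F : ℝ ≃o ℝ}
    (hF : IsLift (φ k) F) {x : ℝ} (hx : F x = x) : F = 1 := by
  have h1 : φ k = 1 := hfree k ⟨_, hF.fix_coe hx⟩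
  rw [h1] at hF
  exact hF.unique IsLift.one hx rfl

theorem comparable (hfree : ∀ k, (Fix (φ k)).Nonempty → φ k = 1) {k l : K} {F G : ℝ ≃o ℝ}
    (hF : IsLift (φ k) F) (hG : IsLift (φ l) G) : (∀ x, F x ≤ G x) ∨ ∀ x, G x ≤ F x := by
  by_contra hcon
  push Not at hcon
  obtain ⟨⟨a, ha⟩, b, hb⟩ := hcon
  obtain ⟨c, hc⟩ := intermediate_value_univ₂ F.continuous G.continuous hb.le ha.le
  have h1 : IsLift (φ (l⁻¹ * k)) (G⁻¹ * F) := by
    rw [map_mul, map_inv]
    exact hG.inv.mul hF
  have h2 : (G⁻¹ * F) c = c := by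
    show G.symm (F c) = c
    rw [hc, G.symm_apply_apply]
  have h3 := lift_eq_one hfree h1 h2
  rw [inv_mul_eq_one] at h3
  rw [h3] at ha
  exact lt_irrefl _ ha

theorem commute_of_free (hor : ∀ k, ∃ F, IsLift (φ k) F)
    (hfree : ∀ k, (Fix (φ k)).Nonempty → φ k = 1) (a b : K) : φ a * φ b = φ b * φ a := by
  have hmul : ∀ {k l : K} {F G : ℝ ≃o ℝ} (hF : IsLift (φ k) F) (hG : IsLift (φ l) G),
      (cd (F * G) (hF.mul hG).1).translationNumber =
        (cd F hF.1).translationNumber + (cd G hG.1).translationNumber := by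
    intro k l F G hF hG
    rw [cd_mul hF.1 hG.1]
    apply tau_mul'
    have h1 : IsLift (φ (k * l)) (F * G) := by rw [map_mul]; exact hF.mul hG
    have h2 : IsLift (φ (l * k)) (G * F) := by rw [map_mul]; exact hG.mul hF
    exact comparable hfree h1 h2
  obtain ⟨F, hF⟩ := hor a
  obtain ⟨G, hG⟩ := hor b
  have h1 : IsLift (φ (a * b)) (F * G) := by rw [map_mul]; exact hF.mul hG
  have h2 : IsLift (φ (b * a)) (G * F) := by rw [map_mul]; exact hG.mul hF
  have h3 : IsLift (φ (b * a)⁻¹) (G * F)⁻¹ := by rw [map_inv]; exact h2.inv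
  have h4 := hmul h1 h3
  have h5 := hmul h2 h3
  have e1 : ∀ (X : ℝ ≃o ℝ) (hX : ∀ x, X (x + 1) = X x + 1), X = 1 →
      (cd X hX).translationNumber = 0 := by
    intro X hX e
    subst e
    exact CircleDeg1Lift.translationNumber_one
  rw [e1 _ _ (mul_inv_cancel _)] at h5
  have h6 := hmul hF hG
  have h7 := hmul hG hF
  have h8 : (cd (F * G * (G * F)⁻¹) (h1.mul h3).1).translationNumber = ((0 : ℤ) : ℝ) := by
    rw [h4, h6]
    rw [h7] at h5
    push_cast
    linarith
  rw [CircleDeg1Lift.translationNumber_eq_int_iff _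
    (show Continuous (F * G * (G * F)⁻¹ : ℝ ≃o ℝ) from OrderIso.continuous _)] at h8
  obtain ⟨x, hx⟩ := h8
  have h9 : IsLift (φ ((a * b) * (b * a)⁻¹)) (F * G * (G * F)⁻¹) := by
    rw [map_mul]; exact h1.mul h3
  have h10 : (F * G * (G * F)⁻¹) x = x := by
    rw [cd_apply] at hx
    rw [hx]; simp
  have h11 : φ ((a * b) * (b * a)⁻¹) = 1 := hfree _ ⟨_, h9.fix_coe h10⟩
  rw [map_mul, map_inv, mul_inv_eq_one, map_mul, map_mul] at h11
  exact h11

end Pool.Agent.K6.H58.CA
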