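import Pool.Agent.K6.H58.CA.Germ
import Pool.Agent.K6.H58.CA.Holder

/-!
# Groups with finitely many conjugacy classes
-/

set_option autoImplicit false

namespace Pool.Agent.K6.H58.CA

open Filter Topology Set

/-- a permutation which preserves a finite set: a fixed power is trivial on the set -/
theorem pow_fix_of_image {R : Set S1} {σ : Equiv.Perm S1} (hσ : σ '' R = R)
    {x : S1} (hx : x ∈ R) : (σ ^ Nat.card (Equiv.Perm R)) x = x := by
  have h1 : ∀ y, σ y ∈ R ↔ y ∈ R := by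
    intro y
    constructor
    · intro hy
      rw [← hσ] at hy
      obtain ⟨z, hz, e⟩ := hy
      rwa [← σ.injective e]
    · intro hy
      rw [← hσ]
      exact ⟨y, hy, rfl⟩
  have h2 : (σ.subtypePerm h1) ^ Nat.card (Equiv.Perm R) = 1 := pow_card_eq_one'
  have h3 : ∀ n : ℕ, (((σ.subtypePerm h1) ^ n) ⟨x, hx⟩ : R).1 = (σ ^ n) x := by
    intro n
    rw [Equiv.Perm.subtypePerm_pow]
    rfl
  rw [← h3, h2]
  rfl

theorem card_perm_pos {R : Set S1} (hR : R.Finite) : 0 < Nat.card (Equiv.Perm R) := by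
  have := hR.to_subtype
  exact Nat.card_pos

variable {K : Type*} [Group K] {φ : K →* Equiv.Perm S1}

theorem bs_iter {h k : K} {n m : ℕ} (e : h * k ^ n * h⁻¹ = k ^ m) (i : ℕ) :
    h ^ i * k ^ (n ^ i) * (h ^ i)⁻¹ = k ^ (m ^ i) := by
  induction i with
  | zero => simp
  | succ i ih =>
    have h1 : h ^ (i + 1) * k ^ (n ^ (i + 1)) * (h ^ (i + 1))⁻¹
        = h * (h ^ i * (k ^ (n ^ i)) ^ n * (h ^ i)⁻¹) * h⁻¹ := by
      rw [← pow_mul, ← pow_succ, pow_succ' h i]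
      group
    rw [h1, ← conj_pow, ih, ← pow_mul, mul_comm, pow_mul, ← conj_pow, e, ← pow_mul,
      ← pow_succ']

theorem bs_data (hP : ∀ k, PAn (φ k)) (hc : Finite (ConjClasses K)) {k : K}
    (hne : (Fix (φ k)).Nonempty) : ∃ (h : K) (N M : ℕ), N ≠ M ∧
      (∀ x ∈ RB (Fix (φ k)), φ h x = x) ∧ h * k ^ N = k ^ M * h := by
  obtain ⟨n, m, hnm, e⟩ := Finite.exists_ne_map_eq_of_infinite
    (fun n : ℕ => ConjClasses.mk (k ^ (n + 1)))
  replace e : ConjClasses.mk (k ^ (n + 1)) = ConjClasses.mk (k ^ (m + 1)) := e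
  rw [ConjClasses.mk_eq_mk_iff_isConj, isConj_iff] at e
  obtain ⟨h, e⟩ := e
  obtain ⟨F, hF, -⟩ := hP k
  obtain ⟨H, hH, -⟩ := hP h
  have hpow : ∀ i : ℕ, Fix (φ (k ^ (i + 1))) = Fix (φ k) := by
    intro i
    rw [map_pow]
    exact fix_pow hF hne (Nat.succ_pos i)
  have himg : φ h '' RB (Fix (φ k)) = RB (Fix (φ k)) := by
    have h1 := rb_conj_iff (g := φ (k ^ (n + 1))) hH
    rw [← map_mul, ← map_inv, ← map_mul, e, hpow, hpow] at h1
    exact h1.symm
  have hfin := rb_finite (hP k)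
  set j := Nat.card (Equiv.Perm (RB (Fix (φ k)))) with hj
  have hj0 : 0 < j := card_perm_pos hfin
  refine ⟨h ^ j, (n + 1) ^ j, (m + 1) ^ j, ?_, ?_, ?_⟩
  · intro e2
    have := Nat.pow_left_injective hj0.ne' e2
    omega
  · intro x hx
    rw [map_pow]
    exact pow_fix_of_image himg hx
  · have := bs_iter e j
    rw [← this]
    group

theorem lift_rel {h k : K} {N M : ℕ} (e : h * k ^ N = k ^ M * h) {p : ℝ} {F H : ℝ ≃o ℝ}
    (hF : IsLift (φ k) F) (hH : IsLift (φ h) H) (hFp : F p = p) (hHp : H p = p) :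
    H * F ^ N = F ^ M * H := by
  have h1 : IsLift (φ (h * k ^ N)) (H * F ^ N) := by
    rw [map_mul, map_pow]
    exact hH.mul (hF.pow N)
  have h2 : IsLift (φ (h * k ^ N)) (F ^ M * H) := by
    rw [e, map_mul, map_pow]
    exact (hF.pow M).mul hH
  refine h1.unique h2 (p := p) ?_ ?_
  · show H ((F ^ N) p) = p
    rw [pow_fix hFp, hHp]
  · show (F ^ M) (H p) = p
    rw [hHp, pow_fix hFp]

theorem mu_eq_one_of_conj (hP : ∀ k, PAn (φ k)) (hc : Finite (ConjClasses K)) {k : K} {p : ℝ}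
    {F : ℝ ≃o ℝ} (hF : IsLift (φ k) F) (hFp : F p = p) (hFa : AnR F p) : Mu F p 1 := by
  by_cases htr : ∀ᶠ y in 𝓝[>] p, F y = y
  · exact mu_one_of_trivial hFp htr
  have hrb : (p : S1) ∈ RB (Fix (φ k)) := by
    rw [coe_mem_rb]
    refine ⟨hF.fix_coe hFp, fun h => htr ?_⟩
    filter_upwards [h] with y hy
    exact hF.fix_of_fix hFp hy
  obtain ⟨h, N, M, hNM, hfix, e⟩ := bs_data hP hc ⟨_, hF.fix_coe hFp⟩
  obtain ⟨H, hH, hHp, hHa⟩ := (hP h).fixing (hfix _ hrb)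
  have hrel := lift_rel e hF hH hFp hHp
  obtain ⟨μ, hμ, hμF⟩ := hFa.mu
  obtain ⟨ν, hν, hνH⟩ := (hHa p).1.mu
  have h1 : Mu (H * F ^ N) p (ν * μ ^ N) := hνH.mul (hμF.pow hFp N) (pow_fix hFp N)
  have h2 : Mu (F ^ M * H) p (μ ^ M * ν) := (hμF.pow hFp M).mul hνH hHp
  rw [hrel] at h1
  have h3 := h1.unique h2
  have h4 : μ ^ N = μ ^ M := by
    rw [mul_comm (μ ^ M)] at h3
    exact mul_left_cancel₀ hν.ne' h3
  have h5 : μ = 1 := by
    by_contra hne
    exact hNM (pow_right_injective₀ hμ hne h4)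
  rw [← h5]
  exact hμF

theorem free_of_conj (hP : ∀ k, PAn (φ k)) (hc : Finite (ConjClasses K)) (k : K)
    (hne : (Fix (φ k)).Nonempty) : φ k = 1 := by
  obtain ⟨F0, hF0, -⟩ := hP k
  apply eq_one_of_rb_empty hF0 hne
  rw [Set.eq_empty_iff_forall_notMem]
  rintro _ ⟨p, rfl, hp⟩
  have hrb : (p : S1) ∈ RB (Fix (φ k)) := coe_mem_rb.2 hp
  obtain ⟨F, hF, hFp, hFa⟩ := (hP k).fixing hp.1
  obtain ⟨h, N, M, hNM, hfix, e⟩ := bs_data hP hc hne
  obtain ⟨H, hH, hHp, hHa⟩ := (hP h).fixing (hfix _ hrb)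
  have hrel := lift_rel e hF hH hFp hHp
  have h1 := no_bs hHp hFp (hHa p).1 (hFa p).1 (mu_eq_one_of_conj hP hc hH hHp (hHa p).1)
    (mu_eq_one_of_conj hP hc hF hFp (hFa p).1) hNM hrel
  apply hp.2
  filter_upwards [h1] with y hy
  exact hF.fix_coe hy

theorem finite_of_comm (hc : Finite (ConjClasses K)) (hcomm : ∀ a b, φ a * φ b = φ b * φ a) :
    (Set.range φ).Finite := by
  refine (Set.finite_range (fun c : ConjClasses K => φ (Quotient.out c))).subset ?_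
  rintro _ ⟨k, rfl⟩
  refine ⟨ConjClasses.mk k, ?_⟩
  have h4 : IsConj (Quotient.out (ConjClasses.mk k)) k := by
    rw [← ConjClasses.mk_eq_mk_iff_isConj]
    exact Quotient.out_eq _
  obtain ⟨g, hg⟩ := isConj_iff.1 h4
  have h5 : φ (g * Quotient.out (ConjClasses.mk k) * g⁻¹) =
      φ (Quotient.out (ConjClasses.mk k)) := by
    rw [map_mul, map_mul, hcomm g, mul_assoc, ← map_mul, mul_inv_cancel, map_one, mul_one]
  rw [hg] at h5
  exact h5.symm

theorem type6_finite (hP : ∀ k, PAn (φ k)) (hc : Finite (ConjClasses K)) :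
    (Set.range φ).Finite :=
  finite_of_comm hc (commute_of_free (fun k => (hP k).imp fun _ h => h.1) (free_of_conj hP hc))

end Pool.Agent.K6.H58.CA
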