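import Mathlib

/-!
# Free semigroups: ping-pong and wreath products
-/

set_option autoImplicit false

namespace Pool.Agent.K6.H58.CA

/-- The product of the letters `a` (for `false`) and `b` (for `true`) along the list `l`. -/
def word {K : Type*} [Group K] (a b : K) (l : List Bool) : K :=
  (l.map fun t => if t then b else a).prod

/-- No two elements generate a free semigroup of rank two. -/
def NFS (K : Type*) [Group K] : Prop :=
  ∀ a b : K, ∃ l l' : List Bool, l ≠ l' ∧ word a b l = word a b l'

variable {K : Type*} [Group K] {α : Type*} {φ : K →* Equiv.Perm α}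

theorem word_nil (a b : K) : word a b [] = 1 := rfl

theorem word_cons (a b : K) (e : Bool) (l : List Bool) :
    word a b (e :: l) = (if e then b else a) * word a b l := by
  simp [word]

theorem word_append (a b : K) (e : Bool) (l : List Bool) :
    word a b (l ++ [e]) = word a b l * (if e then b else a) := by
  simp [word]

theorem semi_ping (f h : K) {A : Set α} (hA : A.Nonempty) (hf : ∀ x ∈ A, φ f x ∈ A)
    (hh : ∀ x ∈ A, φ h x ∈ A) (hd : ∀ x ∈ A, ∀ y ∈ A, φ f x ≠ φ h y) :
    ∀ l l' : List Bool, word f h l = word f h l' → l = l' := by
  have hmap : ∀ l : List Bool, ∀ x ∈ A, φ (word f h l) x ∈ A := by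
    intro l
    induction l with
    | nil => intro x hx; simpa [word_nil] using hx
    | cons e l ih =>
      intro x hx
      rw [word_cons, map_mul]
      show φ (if e then h else f) (φ (word f h l) x) ∈ A
      cases e
      · exact hf _ (ih x hx)
      · exact hh _ (ih x hx)
  have hnil : ∀ (e : Bool) (l : List Bool), word f h (e :: l) ≠ 1 := by
    intro e l he
    obtain ⟨x0, hx0⟩ := hA
    have h1 : ∀ x, φ (if e then h else f) (φ (word f h l) x) = x := by
      intro x
      have := congrArg (fun k => φ k x) he
      simp only [word_cons, map_mul, map_one] at this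
      exact this
    cases e
    · have h2 := h1 (φ h x0)
      exact hd _ (hmap l _ (hh _ hx0)) _ hx0 h2
    · have h2 := h1 (φ f x0)
      exact hd _ hx0 _ (hmap l _ (hf _ hx0)) h2.symm
  intro l
  induction l with
  | nil =>
    intro l' he
    cases l' with
    | nil => rfl
    | cons e l' => exact absurd he.symm (hnil e l')
  | cons e l ih =>
    intro l' he
    cases l' with
    | nil => exact absurd he (hnil e l)
    | cons e' l' =>
      by_cases hee : e = e'
      · subst hee
        rw [word_cons, word_cons] at he
        rw [ih l' (mul_left_cancel he)]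
      · exfalso
        obtain ⟨x0, hx0⟩ := hA
        have h1 : φ (if e then h else f) (φ (word f h l) x0) =
            φ (if e' then h else f) (φ (word f h l') x0) := by
          have := congrArg (fun k => φ k x0) he
          simp only [word_cons, map_mul] at this
          exact this
        cases e <;> cases e'
        · exact hee rfl
        · exact hd _ (hmap l _ hx0) _ (hmap l' _ hx0) h1
        · exact hd _ (hmap l' _ hx0) _ (hmap l _ hx0) h1.symm
        · exact hee rfl

theorem semi_wreath (t g : K) {C : Set α} (H2 : ∀ c ∈ C, φ g c ∈ C)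
    (H1 : ∀ j : ℕ, 1 ≤ j → ∀ c ∈ C, φ g ((φ t ^ j) c) = (φ t ^ j) c)
    (H3 : ∀ j : ℕ, 1 ≤ j → ∀ c ∈ C, (φ t ^ j) c ∉ C) (H4 : ∃ c ∈ C, φ g c ≠ c) :
    ∀ l l' : List Bool, word t (t * g) l = word t (t * g) l' → l = l' := by
  obtain ⟨c, hc, hgc⟩ := H4
  have hval : ∀ (l : List Bool) (j : ℕ), 1 ≤ j → ∀ c ∈ C,
      φ (word t (t * g) l) ((φ t ^ j) c) = (φ t ^ (l.length + j)) c := by
    intro l
    induction l with
    | nil => intro j _ c _; simp [word_nil]
    | cons e l ih =>
      intro j hj c hc
      rw [word_cons, map_mul]
      show φ (if e then t * g else t) (φ (word t (t * g) l) ((φ t ^ j) c)) = _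
      rw [ih j hj c hc]
      have h1 : (e :: l).length + j = (l.length + j) + 1 := by simp; ring
      rw [h1, pow_succ' (φ t)]
      cases e
      · rfl
      · simp only [if_true]
        rw [map_mul]
        show φ t (φ g ((φ t ^ (l.length + j)) c)) = φ t ((φ t ^ (l.length + j)) c)
        rw [H1 _ (by omega) c hc]
  have hlt : ∀ n n' : ℕ, n < n' → (φ t ^ n) c ≠ (φ t ^ n') c := by
    intro n n' hn he
    obtain ⟨d, rfl⟩ := Nat.exists_eq_add_of_lt hn
    rw [add_assoc, pow_add] at he
    have h1 : c = (φ t ^ (d + 1)) c := (φ t ^ n).injective he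
    exact H3 (d + 1) (by omega) c hc (h1 ▸ hc)
  have hlen : ∀ l l' : List Bool, word t (t * g) l = word t (t * g) l' →
      l.length = l'.length := by
    intro l l' he
    have h1 := hval l 1 le_rfl c hc
    have h2 := hval l' 1 le_rfl c hc
    rw [he, h2] at h1
    rcases lt_trichotomy l.length l'.length with h | h | h
    · exact absurd h1.symm (hlt _ _ (by omega))
    · exact h
    · exact absurd h1 (hlt _ _ (by omega))
  have hmain : ∀ (n : ℕ) (l l' : List Bool), l.length = n → word t (t * g) l = word t (t * g) l' →
      l = l' := by
    intro n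
    induction n with
    | zero =>
      intro l l' hl he
      have h1 := hlen l l' he
      rw [List.length_eq_zero_iff.1 hl]
      exact (List.length_eq_zero_iff.1 (by omega)).symm
    | succ n ih =>
      intro l l' hl he
      have h1 := hlen l l' he
      rcases List.eq_nil_or_concat l with h2 | ⟨l1, e, h2⟩
      · subst h2; simp at hl
      rcases List.eq_nil_or_concat l' with h3 | ⟨l1', e', h3⟩
      · subst h3; simp at h1; omega
      rw [List.concat_eq_append] at h2 h3
      subst h2 h3
      have hl1 : l1.length = n := by simpa using hl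
      have hl1' : l1'.length = n := by simp at h1; omega
      rw [word_append, word_append] at he
      have hg : ∀ e : Bool, ∃ c' ∈ C, c' = (if e then φ g c else c) ∧
          φ (if e then t * g else t) c = (φ t ^ 1) c' := by
        intro e
        cases e
        · exact ⟨c, hc, by simp, by simp⟩
        · exact ⟨φ g c, H2 c hc, by simp, by simp⟩
      obtain ⟨c1, hc1, e1, f1⟩ := hg e
      obtain ⟨c2, hc2, e2, f2⟩ := hg e'
      have h4 : φ (word t (t * g) l1) (φ (if e then t * g else t) c) =
          φ (word t (t * g) l1') (φ (if e' then t * g else t) c) := by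
        have := congrArg (fun k => φ k c) he
        simp only [map_mul] at this ⊢
        exact this
      rw [f1, f2, hval _ 1 le_rfl _ hc1, hval _ 1 le_rfl _ hc2, hl1, hl1'] at h4
      have h5 := (φ t ^ (n + 1)).injective h4
      have h6 : e = e' := by
        rw [e1, e2] at h5
        cases e <;> cases e'
        · rfl
        · exact absurd h5.symm hgc
        · exact absurd h5 hgc
        · rfl
      subst h6
      rw [ih l1 l1' hl1 (mul_right_cancel he)]
  exact fun l l' he => hmain _ l l' rfl he

end Pool.Agent.K6.H58.CA
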