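import Pool.Agent.K6.H58.CA.Ping
import Pool.Agent.K6.H58.CA.Semi

/-!
# Components of the supports, and crossings
-/

set_option autoImplicit false

namespace Pool.Agent.K6.H58.CA

open Filter Topology Set

/-- `(a, b)` is a component of the support of `F` -/
structure Comp (F : ℝ ≃o ℝ) (a b : ℝ) : Prop where
  lt : a < b
  fa : F a = a
  fb : F b = b
  ne : ∀ x ∈ Ioo a b, F x ≠ x

/-- moves up on `(a, b)` -/
def Up (F : ℝ ≃o ℝ) (a b : ℝ) : Prop := ∀ x ∈ Ioo a b, x < F x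

/-- moves down on `(a, b)` -/
def Dn (F : ℝ ≃o ℝ) (a b : ℝ) : Prop := ∀ x ∈ Ioo a b, F x < x

theorem sign_of_ne {F : ℝ ≃o ℝ} {a b : ℝ} (h : ∀ x ∈ Ioo a b, F x ≠ x) : Up F a b ∨ Dn F a b := by
  by_contra hcon
  unfold Up Dn at hcon
  push Not at hcon
  obtain ⟨⟨x, hx, h1⟩, y, hy, h2⟩ := hcon
  obtain ⟨z, hz, h3⟩ := isPreconnected_Ioo.intermediate_value₂ hx hy
    F.continuous.continuousOn continuousOn_id h1 h2
  exact h z hz h3

theorem Comp.sign {F : ℝ ≃o ℝ} {a b : ℝ} (h : Comp F a b) : Up F a b ∨ Dn F a b :=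
  sign_of_ne h.ne

theorem Comp.inv {F : ℝ ≃o ℝ} {a b : ℝ} (h : Comp F a b) : Comp F⁻¹ a b := by
  refine ⟨h.lt, ?_, ?_, ?_⟩
  · show F.symm a = a
    rw [F.symm_apply_eq, h.fa]
  · show F.symm b = b
    rw [F.symm_apply_eq, h.fb]
  · intro x hx e
    have e' : F.symm x = x := e
    rw [F.symm_apply_eq] at e'
    exact h.ne x hx e'.symm

theorem Up.of_dn_inv {F : ℝ ≃o ℝ} {a b : ℝ} (h : Dn F a b) : Up F⁻¹ a b := by
  intro x hx
  show x < F.symm x
  rw [← F.lt_iff_lt, F.apply_symm_apply]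
  exact h x hx

theorem Dn.of_up_inv {F : ℝ ≃o ℝ} {a b : ℝ} (h : Up F a b) : Dn F⁻¹ a b := by
  intro x hx
  show F.symm x < x
  rw [← F.lt_iff_lt, F.apply_symm_apply]
  exact h x hx

theorem Comp.maps {F : ℝ ≃o ℝ} {a b x : ℝ} (h : Comp F a b) (hx : x ∈ Ioo a b) (n : ℕ) :
    (F ^ n) x ∈ Ioo a b := by
  have h1 := (F ^ n).strictMono hx.1
  have h2 := (F ^ n).strictMono hx.2
  rw [pow_fix h.fa] at h1
  rw [pow_fix h.fb] at h2
  exact ⟨h1, h2⟩

theorem Comp.conv_b {F : ℝ ≃o ℝ} (hper : ∀ x, F (x + 1) = F x + 1) {a b x : ℝ} (h : Comp F a b)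
    (hu : Up F a b) (hx : x ∈ Ioo a b) : Tendsto (fun n : ℕ => (F ^ n) x) atTop (𝓝 b) := by
  obtain ⟨c, hc, ht⟩ := conv_up hper h.fa (hu x hx)
  have h1 : c ≤ b := le_of_tendsto' ht fun n => (h.maps hx n).2.le
  have h2 : x ≤ c := ge_of_tendsto' ht fun n => by
    rcases Nat.eq_zero_or_pos n with h0 | h0
    · rw [h0]; exact le_refl _
    · exact (lt_pow_of_lt (hu x hx) h0).le
  rcases h1.lt_or_eq with h3 | h3
  · exact absurd hc (h.ne c ⟨hx.1.trans_le h2, h3⟩)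
  · rwa [h3] at ht

theorem Comp.conv_a {F : ℝ ≃o ℝ} (hper : ∀ x, F (x + 1) = F x + 1) {a b x : ℝ} (h : Comp F a b)
    (hu : Dn F a b) (hx : x ∈ Ioo a b) : Tendsto (fun n : ℕ => (F ^ n) x) atTop (𝓝 a) := by
  obtain ⟨c, hc, ht⟩ := conv_down hper h.fa (hu x hx)
  have h1 : a ≤ c := ge_of_tendsto' ht fun n => (h.maps hx n).1.le
  have h2 : c ≤ x := le_of_tendsto' ht fun n => by
    rcases Nat.eq_zero_or_pos n with h0 | h0
    · rw [h0]; exact le_refl _
    · exact (pow_lt_of_lt (hu x hx) h0).le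
  rcases h1.lt_or_eq with h3 | h3
  · exact absurd hc (h.ne c ⟨h3, h2.trans_lt hx.2⟩)
  · rwa [← h3] at ht

theorem Comp.le_one {F : ℝ ≃o ℝ} (hper : ∀ x, F (x + 1) = F x + 1) {a b : ℝ} (h : Comp F a b) :
    b ≤ a + 1 := by
  by_contra hcon
  push Not at hcon
  apply h.ne (a + 1) ⟨by linarith, hcon⟩
  rw [hper, h.fa]

variable {K : Type*} [Group K] {φ : K →* Equiv.Perm S1}

theorem coe_ne {x y : ℝ} (h1 : x < y) (h2 : y < x + 1) : (x : S1) ≠ (y : S1) := by
  intro h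
  obtain ⟨n, hn⟩ := coe_eq_iff.1 h
  have h3 : (0 : ℝ) < n := by linarith
  have h4 : (n : ℝ) < 1 := by linarith
  have h5 : 0 < n := by exact_mod_cast h3
  have h6 : n < 1 := by exact_mod_cast h4
  omega

theorem pp0 (hN : NFS K) {k u : K} {F H : ℝ ≃o ℝ} (hF : IsLift (φ k) F) (hH : IsLift (φ u) H)
    {e1 e2 : ℝ} (he : e1 ≤ e2) (he' : e2 < e1 + 1) {n m : ℕ} (h1 : e1 ≤ (F ^ n) (H e1))
    (h2 : (F ^ n) (H e2) ≤ e2) (h3 : e1 ≤ (F ^ m) (H e1)) (h4 : (F ^ m) (H e2) ≤ e2)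
    (h5 : (F ^ n) (H e2) < (F ^ m) (H e1)) : False := by
  obtain ⟨l, l', hne, hl⟩ := hN (k ^ n * u) (k ^ m * u)
  apply hne
  have hφ : ∀ (j : ℕ) (x : ℝ), φ (k ^ j * u) (x : S1) = ((F ^ j) (H x) : ℝ) := by
    intro j x
    rw [map_mul, map_pow]
    exact ((hF.pow j).mul hH).2 x
  refine semi_ping (φ := φ) _ _ (A := (fun x : ℝ => (x : S1)) '' Icc e1 e2) ⟨_, e1, ⟨le_rfl, he⟩, rfl⟩
    ?_ ?_ ?_ l l' hl
  · rintro _ ⟨x, hx, rfl⟩
    refine ⟨(F ^ n) (H x), ⟨?_, ?_⟩, (hφ n x).symm⟩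
    · exact h1.trans ((F ^ n).monotone (H.monotone hx.1))
    · exact ((F ^ n).monotone (H.monotone hx.2)).trans h2
  · rintro _ ⟨x, hx, rfl⟩
    refine ⟨(F ^ m) (H x), ⟨?_, ?_⟩, (hφ m x).symm⟩
    · exact h3.trans ((F ^ m).monotone (H.monotone hx.1))
    · exact ((F ^ m).monotone (H.monotone hx.2)).trans h4
  · rintro _ ⟨x, hx, rfl⟩ _ ⟨y, hy, rfl⟩
    show φ (k ^ n * u) (x : S1) ≠ φ (k ^ m * u) (y : S1)
    rw [hφ, hφ]
    have a1 := (F ^ n).monotone (H.monotone hx.2)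
    have a2 := (F ^ n).monotone (H.monotone hx.1)
    have a3 := (F ^ m).monotone (H.monotone hy.1)
    have a4 := (F ^ m).monotone (H.monotone hy.2)
    apply coe_ne <;> linarith

/-- an image of the right endpoint is not inside -/
theorem cross_b (hN : NFS K) {k u : K} {F H : ℝ ≃o ℝ} (hF : IsLift (φ k) F)
    (hH : IsLift (φ u) H) {a b : ℝ} (hC : Comp F a b) : H b ∉ Ioo a b := by
  intro hb
  have main : ∀ {k : K} {F : ℝ ≃o ℝ}, IsLift (φ k) F → Comp F a b → Up F a b → False := by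
    intro k F hF hC hu
    have h1 : ∀ᶠ x in 𝓝[<] b, a < H x :=
      ((H.continuous.tendsto b).eventually_const_lt hb.1).filter_mono nhdsWithin_le_nhds
    have h2 : ∀ᶠ x in 𝓝[<] b, x ∈ Ioo a b := Ioo_mem_nhdsLT hC.lt
    obtain ⟨e, he1, he2⟩ := (h1.and h2).exists
    have hHe : H e < H b := H.strictMono he2.2
    have hHe' : H e ∈ Ioo a b := ⟨he1, hHe.trans hb.2⟩
    have ht := hC.conv_b hF.1 hu hHe'
    obtain ⟨n, hn⟩ := (ht.eventually_const_lt he2.2).exists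
    have hnb := (hC.maps hb n).2
    obtain ⟨m, hm1, hm2⟩ := ((ht.eventually_const_lt he2.2).and
      (ht.eventually_const_lt hnb)).exists
    have hle := hC.le_one hF.1
    refine pp0 hN hF hH he2.2.le (by linarith [he2.1]) hn.le hnb.le hm1.le
      (hC.maps hb m).2.le hm2
  rcases hC.sign with h | h
  · exact main hF hC h
  · have h1 : IsLift (φ k⁻¹) F⁻¹ := by rw [map_inv]; exact hF.inv
    exact main h1 hC.inv (Up.of_dn_inv h)

/-- an image of the left endpoint is not inside -/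
theorem cross_a (hN : NFS K) {k u : K} {F H : ℝ ≃o ℝ} (hF : IsLift (φ k) F)
    (hH : IsLift (φ u) H) {a b : ℝ} (hC : Comp F a b) : H a ∉ Ioo a b := by
  intro hb
  have main : ∀ {k : K} {F : ℝ ≃o ℝ}, IsLift (φ k) F → Comp F a b → Dn F a b → False := by
    intro k F hF hC hu
    have h1 : ∀ᶠ x in 𝓝[>] a, H x < b :=
      ((H.continuous.tendsto a).eventually_lt_const hb.2).filter_mono nhdsWithin_le_nhds
    have h2 : ∀ᶠ x in 𝓝[>] a, x ∈ Ioo a b := Ioo_mem_nhdsGT hC.lt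
    obtain ⟨e, he1, he2⟩ := (h1.and h2).exists
    have hHe : H a < H e := H.strictMono he2.1
    have hHe' : H e ∈ Ioo a b := ⟨hb.1.trans hHe, he1⟩
    have ht := hC.conv_a hF.1 hu hHe'
    obtain ⟨m, hm⟩ := (ht.eventually_lt_const he2.1).exists
    have hma := (hC.maps hb m).1
    obtain ⟨n, hn1, hn2⟩ := ((ht.eventually_lt_const he2.1).and
      (ht.eventually_lt_const hma)).exists
    have hle := hC.le_one hF.1
    refine pp0 hN hF hH he2.1.le (by linarith [he2.2]) (hC.maps hb n).1.le hn1.le hma.le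
      hm.le hn2
  rcases hC.sign with h | h
  · have h1 : IsLift (φ k⁻¹) F⁻¹ := by rw [map_inv]; exact hF.inv
    exact main h1 hC.inv (Dn.of_up_inv h)
  · exact main hF hC h

/-- the images of a component are disjoint from it or equal to it -/
theorem eq_or_disj (hN : NFS K) {k u : K} {F H : ℝ ≃o ℝ} (hF : IsLift (φ k) F)
    (hH : IsLift (φ u) H) {a b : ℝ} (hC : Comp F a b) :
    (H a = a ∧ H b = b) ∨ H b ≤ a ∨ b ≤ H a := by
  by_contra hcon
  push Not at hcon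
  obtain ⟨h0, h1, h2⟩ := hcon
  have hHi : IsLift (φ u⁻¹) H⁻¹ := by rw [map_inv]; exact hH.inv
  have h3 : H a ≤ a := by
    by_contra h
    push Not at h
    exact cross_a hN hF hH hC ⟨h, h2⟩
  have h4 : b ≤ H b := by
    by_contra h
    push Not at h
    exact cross_b hN hF hH hC ⟨h1, h⟩
  have h5 : ¬ H a < a := by
    intro h
    apply cross_a hN hF hHi hC
    constructor
    · show a < H.symm a
      rw [← H.lt_iff_lt, H.apply_symm_apply]
      exact h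
    · show H.symm a < b
      rw [← H.lt_iff_lt, H.apply_symm_apply]
      exact hC.lt.trans_le h4
  have h6 : ¬ b < H b := by
    intro h
    apply cross_b hN hF hHi hC
    constructor
    · show a < H.symm b
      rw [← H.lt_iff_lt, H.apply_symm_apply]
      exact h3.trans_lt hC.lt
    · show H.symm b < b
      rw [← H.lt_iff_lt, H.apply_symm_apply]
      exact h
  have h7 : H a = a := le_antisymm h3 (not_lt.1 h5)
  have h8 : H b = b := le_antisymm (not_lt.1 h6) h4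
  exact h0 h7 h8

end Pool.Agent.K6.H58.CA
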