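import Pool.Agent.K6.H58.CA.RB

/-!
# Right germs at a fixed point: the multiplier and the order of contact with the identity
-/

set_option autoImplicit false

namespace Pool.Agent.K6.H58.CA

open Filter Topology Set Asymptotics

/-- `μ` is the right multiplier of `F` at `p` -/
def Mu (F : ℝ ≃o ℝ) (p μ : ℝ) : Prop := HasDerivWithinAt F μ (Ici p) p

theorem AnR.mu {F : ℝ ≃o ℝ} {p : ℝ} (h : AnR F p) : ∃ μ : ℝ, 0 < μ ∧ Mu F p μ := by
  obtain ⟨A, hA, hd, he⟩ := h
  refine ⟨deriv A p, hd, ?_⟩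
  have h1 : HasDerivWithinAt A (deriv A p) (Ici p) p :=
    hA.differentiableAt.hasDerivAt.hasDerivWithinAt
  exact h1.congr_of_eventuallyEq he (he.self_of_nhdsWithin self_mem_Ici)

theorem Mu.unique {F : ℝ ≃o ℝ} {p μ ν : ℝ} (h : Mu F p μ) (h' : Mu F p ν) : μ = ν :=
  (uniqueDiffWithinAt_Ici p).eq_deriv _ h h'

theorem Mu.one (p : ℝ) : Mu 1 p 1 := by
  have := hasDerivWithinAt_id p (Ici p)
  exact this

theorem Mu.mul {F G : ℝ ≃o ℝ} {p μ ν : ℝ} (h : Mu F p μ) (h' : Mu G p ν) (hG : G p = p) :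
    Mu (F * G) p (μ * ν) := by
  have h1 : HasDerivWithinAt F μ (Ici p) (G p) := by rw [hG]; exact h
  have h2 : MapsTo G (Ici p) (Ici p) := by
    intro y hy
    have := G.monotone (show p ≤ y from hy)
    rw [hG] at this
    exact this
  exact HasDerivWithinAt.comp (h₂ := F) (h := G) p h1 h' h2

theorem Mu.pow {F : ℝ ≃o ℝ} {p μ : ℝ} (h : Mu F p μ) (hF : F p = p) (n : ℕ) :
    Mu (F ^ n) p (μ ^ n) := by
  induction n with
  | zero => simpa using Mu.one p
  | succ n ih =>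
    rw [pow_succ, pow_succ]
    exact ih.mul h hF

theorem mu_one_of_trivial {F : ℝ ≃o ℝ} {p : ℝ} (hF : F p = p) (h : ∀ᶠ y in 𝓝[>] p, F y = y) :
    Mu F p 1 := by
  refine (Mu.one p).congr_of_eventuallyEq ?_ hF
  have h1 : 𝓝[≥] p = pure p ⊔ 𝓝[>] p := by
    rw [← Ioi_insert, nhdsWithin_insert]
  rw [EventuallyEq, h1, eventually_sup]
  exact ⟨hF, h⟩

/-- contact of order `K` with the identity on the right of `p`, with leading coefficient `c` -/
def Con (F : ℝ ≃o ℝ) (p : ℝ) (K : ℕ) (c : ℝ) : Prop :=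
  Tendsto (fun y => (F y - y) / (y - p) ^ K) (𝓝[>] p) (𝓝 c)

theorem Con.unique {F : ℝ ≃o ℝ} {p c d : ℝ} {K : ℕ} (h : Con F p K c) (h' : Con F p K d) :
    c = d := tendsto_nhds_unique h h'

theorem con_one (p : ℝ) (K : ℕ) : Con 1 p K 0 := by
  refine Tendsto.congr (fun y => ?_) tendsto_const_nhds
  show (0 : ℝ) = (y - y) / _
  rw [sub_self, zero_div]

theorem Mu.tendsto_ratio {F : ℝ ≃o ℝ} {p : ℝ} (h : Mu F p 1) (hF : F p = p) (K : ℕ) :
    Tendsto (fun y => ((F y - p) / (y - p)) ^ K) (𝓝[>] p) (𝓝 1) := by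
  have h1 : HasDerivWithinAt F 1 (Ioi p) p := h.mono Ioi_subset_Ici_self
  rw [hasDerivWithinAt_iff_tendsto_slope' (by simp)] at h1
  have h2 := h1.pow K
  rw [one_pow] at h2
  refine h2.congr' ?_
  filter_upwards with y
  rw [slope_def_field, hF]

theorem tendsto_right' {F : ℝ ≃o ℝ} {p : ℝ} (hF : F p = p) : Tendsto F (𝓝[>] p) (𝓝[>] p) := by
  have := tendsto_right F p
  rwa [hF] at this

theorem Con.comp_right {F G : ℝ ≃o ℝ} {p c : ℝ} {K : ℕ} (h : Con F p K c) (hG : G p = p)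
    (hμ : Mu G p 1) : Tendsto (fun y => (F (G y) - G y) / (y - p) ^ K) (𝓝[>] p) (𝓝 c) := by
  have h1 := (h.comp (tendsto_right' hG)).mul (hμ.tendsto_ratio hG K)
  rw [mul_one] at h1
  refine h1.congr' ?_
  filter_upwards [self_mem_nhdsWithin] with y hy
  have h2 : 0 < y - p := sub_pos.2 hy
  have h3 : 0 < G y - p := by
    have := G.strictMono (show p < y from hy)
    rw [hG] at this
    linarith
  simp only [Function.comp]
  rw [div_pow]
  field_simp

theorem Con.mul {F G : ℝ ≃o ℝ} {p c d : ℝ} {K : ℕ} (h : Con F p K c) (h' : Con G p K d)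
    (hG : G p = p) (hμ : Mu G p 1) : Con (F * G) p K (c + d) := by
  have h1 := (h.comp_right hG hμ).add h'
  refine h1.congr (fun y => ?_)
  show _ = (F (G y) - y) / _
  rw [← add_div]
  congr 1
  ring

theorem Con.pow {F : ℝ ≃o ℝ} {p c : ℝ} {K : ℕ} (h : Con F p K c) (hF : F p = p)
    (hμ : Mu F p 1) (n : ℕ) : Con (F ^ n) p K (n * c) := by
  induction n with
  | zero => simpa using con_one p K
  | succ n ih =>
    rw [pow_succ]
    have h1 := ih.mul h hF hμ
    have h2 : ((n + 1 : ℕ) : ℝ) * c = n * c + c := by push_cast; ring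
    rw [h2]
    exact h1

/-- conjugation by a germ with multiplier one -/
theorem Con.comp_left {F G : ℝ ≃o ℝ} {p c : ℝ} {K : ℕ} (h : Con G p K c) (hG : G p = p)
    (hF : AnR F p) (hμ : Mu F p 1) :
    Tendsto (fun y => (F (G y) - F y) / (y - p) ^ K) (𝓝[>] p) (𝓝 c) := by
  obtain ⟨A, hA, hd, he⟩ := hF
  have hd1 : deriv A p = 1 := by
    have h1 : HasDerivWithinAt A (deriv A p) (Ici p) p :=
      hA.differentiableAt.hasDerivAt.hasDerivWithinAt
    have h2 : Mu F p (deriv A p) :=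
      h1.congr_of_eventuallyEq he (he.self_of_nhdsWithin self_mem_Ici)
    exact h2.unique hμ
  have hs : HasStrictDerivAt A 1 p := by
    have := hA.hasStrictDerivAt
    rwa [hd1] at this
  have hs2 := hasStrictFDerivAt_iff_isLittleO.1 hs.hasStrictFDerivAt
  have ht : Tendsto (fun y => (G y, y)) (𝓝[>] p) (𝓝 (p, p)) := by
    refine Tendsto.prodMk_nhds ?_ ?_
    · exact (tendsto_right' hG).mono_right nhdsWithin_le_nhds
    · exact tendsto_id.mono_left nhdsWithin_le_nhds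
  have h3 := hs2.comp_tendsto ht
  have hO : (fun y => G y - y) =O[𝓝[>] p] (fun y => (y - p) ^ K) := by
    have h4 : (fun y => (G y - y) / (y - p) ^ K) =O[𝓝[>] p] (fun _ => (1 : ℝ)) :=
      h.isBigO_one ℝ
    have h5 := h4.mul (isBigO_refl (fun y : ℝ => (y - p) ^ K) (𝓝[>] p))
    refine (h5.congr' ?_ ?_)
    · filter_upwards [self_mem_nhdsWithin] with y hy
      have h2 : 0 < y - p := sub_pos.2 hy
      field_simp
    · filter_upwards with y
      rw [one_mul]
  have h6 := (h3.trans_isBigO hO).tendsto_div_nhds_zero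
  have h7 := h6.add h
  rw [zero_add] at h7
  refine h7.congr' ?_
  have he1 : ∀ᶠ y in 𝓝[>] p, F y = A y := he.filter_mono (nhdsWithin_mono _ Ioi_subset_Ici_self)
  filter_upwards [he1, (tendsto_right' hG).eventually he1] with y hy1 hy2
  simp only [Function.comp]
  rw [hy1, hy2, ← add_div]
  congr 1
  simp

/-- a nontrivial germ has a finite order of contact -/
theorem exists_con {F : ℝ ≃o ℝ} {p : ℝ} (h : AnR F p) (hnt : ¬ ∀ᶠ y in 𝓝[>] p, F y = y) :
    ∃ (K : ℕ) (c : ℝ), c ≠ 0 ∧ Con F p K c := by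
  obtain ⟨A, hA, hd, he⟩ := h
  have he1 : ∀ᶠ y in 𝓝[>] p, F y = A y := he.filter_mono (nhdsWithin_mono _ Ioi_subset_Ici_self)
  have h1 : AnalyticAt ℝ (fun y => A y - y) p := hA.sub analyticAt_id
  have h2 : ¬ ∀ᶠ y in 𝓝 p, A y - y = 0 := by
    intro h3
    apply hnt
    filter_upwards [he1, h3.filter_mono nhdsWithin_le_nhds] with y hy1 hy2
    rw [hy1]
    linarith
  obtain ⟨K, q, hq, hq0, hqe⟩ := h1.exists_eventuallyEq_pow_smul_nonzero_iff.2 h2
  refine ⟨K, q p, hq0, ?_⟩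
  have h3 : Tendsto q (𝓝[>] p) (𝓝 (q p)) := hq.continuousAt.tendsto.mono_left nhdsWithin_le_nhds
  refine h3.congr' ?_
  filter_upwards [he1, hqe.filter_mono nhdsWithin_le_nhds, self_mem_nhdsWithin] with y hy1 hy2 hy3
  have h4 : 0 < y - p := sub_pos.2 hy3
  rw [hy1, hy2, smul_eq_mul]
  field_simp

/-- germs with multiplier one do not satisfy a Baumslag-Solitar relation -/
theorem no_bs {F G : ℝ ≃o ℝ} {p : ℝ} (hFp : F p = p) (hGp : G p = p) (hFa : AnR F p)
    (hGa : AnR G p) (hF : Mu F p 1) (hG : Mu G p 1) {n m : ℕ} (hnm : n ≠ m)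
    (hrel : F * G ^ n = G ^ m * F) : ∀ᶠ y in 𝓝[>] p, G y = y := by
  by_contra hnt
  obtain ⟨K, c, hc, hK⟩ := exists_con hGa hnt
  have h1 := (hK.pow hGp hG n).comp_left (pow_fix hGp n) hFa hF
  have h2 := (hK.pow hGp hG m).comp_right hFp hF
  have h3 : (fun y => (F ((G ^ n) y) - F y) / (y - p) ^ K) =
      fun y => ((G ^ m) (F y) - F y) / (y - p) ^ K := by
    funext y
    have : F ((G ^ n) y) = (G ^ m) (F y) := by
      have := congrArg (fun f : ℝ ≃o ℝ => f y) hrel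
      exact this
    rw [this]
  rw [h3] at h1
  have h4 := tendsto_nhds_unique h1 h2
  have h5 : (n : ℝ) = m := mul_right_cancel₀ hc h4
  exact hnm (by exact_mod_cast h5)

end Pool.Agent.K6.H58.CA
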