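import Pool.Agent.K6.H58.CA.Base

/-!
# The right boundary points of the set of fixed points
-/

set_option autoImplicit false

namespace Pool.Agent.K6.H58.CA

open Filter Topology Set

/-- `F` is real-analytic on the right of `x`, with positive derivative -/
def AnR (F : ℝ → ℝ) (x : ℝ) : Prop :=
  ∃ A : ℝ → ℝ, AnalyticAt ℝ A x ∧ 0 < deriv A x ∧ ∀ᶠ y in 𝓝[≥] x, F y = A y

/-- `F` is real-analytic on the left of `x`, with positive derivative -/
def AnL (F : ℝ → ℝ) (x : ℝ) : Prop :=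
  ∃ A : ℝ → ℝ, AnalyticAt ℝ A x ∧ 0 < deriv A x ∧ ∀ᶠ y in 𝓝[≤] x, F y = A y

/-- orientation-preserving piecewise analytic homeomorphisms -/
def PAn (g : Equiv.Perm S1) : Prop :=
  ∃ F : ℝ ≃o ℝ, IsLift g F ∧ ∀ x, AnR F x ∧ AnL F x

theorem AnR.tr {F : ℝ ≃o ℝ} {x : ℝ} (h : AnR F x) (n : ℤ) : AnR (CA.tr n * F : ℝ ≃o ℝ) x := by
  obtain ⟨A, hA, hd, he⟩ := h
  refine ⟨fun y => A y + n, hA.add analyticAt_const, by simpa using hd, ?_⟩
  filter_upwards [he] with y hy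
  show F y + n = _
  rw [hy]

theorem AnL.tr {F : ℝ ≃o ℝ} {x : ℝ} (h : AnL F x) (n : ℤ) : AnL (CA.tr n * F : ℝ ≃o ℝ) x := by
  obtain ⟨A, hA, hd, he⟩ := h
  refine ⟨fun y => A y + n, hA.add analyticAt_const, by simpa using hd, ?_⟩
  filter_upwards [he] with y hy
  show F y + n = _
  rw [hy]

theorem PAn.fixing {g : Equiv.Perm S1} (h : PAn g) {p : ℝ} (hp : (p : S1) ∈ Fix g) :
    ∃ F : ℝ ≃o ℝ, IsLift g F ∧ F p = p ∧ ∀ x, AnR F x ∧ AnL F x := by
  obtain ⟨F, hF, hA⟩ := h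
  obtain ⟨n, hn⟩ := hF.fixing hp
  exact ⟨_, hF.tr n, hn, fun x => ⟨(hA x).1.tr n, (hA x).2.tr n⟩⟩

theorem tendsto_right (F : ℝ ≃o ℝ) (p : ℝ) : Tendsto F (𝓝[>] p) (𝓝[>] (F p)) := by
  refine tendsto_nhdsWithin_iff.2 ⟨?_, ?_⟩
  · exact (F.continuous.tendsto p).mono_left nhdsWithin_le_nhds
  · filter_upwards [self_mem_nhdsWithin] with y hy
    exact F.strictMono hy

/-- the right boundary of a subset of the circle, on the line -/
def RBr (A : Set S1) : Set ℝ := {p | (p : S1) ∈ A ∧ ¬ ∀ᶠ y in 𝓝[>] p, ((y : ℝ) : S1) ∈ A}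

/-- the right boundary points -/
def RB (A : Set S1) : Set S1 := {q | ∃ p : ℝ, (p : S1) = q ∧ p ∈ RBr A}

theorem rbr_add_int {A : Set S1} {p : ℝ} (n : ℤ) (h : p ∈ RBr A) : p + n ∈ RBr A := by
  refine ⟨?_, fun h2 => h.2 ?_⟩
  · rw [coe_add_int]; exact h.1
  · have h1 : Tendsto (fun y : ℝ => y + n) (𝓝[>] p) (𝓝[>] (p + n)) := tendsto_right (CA.tr n) p
    filter_upwards [h1.eventually h2] with y hy
    rwa [coe_add_int] at hy

theorem coe_mem_rb {A : Set S1} {p : ℝ} : (p : S1) ∈ RB A ↔ p ∈ RBr A := by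
  constructor
  · rintro ⟨p', he, hp'⟩
    obtain ⟨n, hn⟩ := coe_eq_iff.1 he
    rw [hn]
    exact rbr_add_int n hp'
  · exact fun h => ⟨p, rfl, h⟩

theorem rb_sub {A : Set S1} : RB A ⊆ A := by
  rintro _ ⟨p, rfl, hp⟩
  exact hp.1

theorem rb_image {h : Equiv.Perm S1} {H : ℝ ≃o ℝ} (hH : IsLift h H) {A : Set S1} {q : S1}
    (hq : q ∈ RB A) : h q ∈ RB (h '' A) := by
  obtain ⟨p, rfl, hp⟩ := hq
  rw [hH.2, coe_mem_rb]
  refine ⟨⟨p, hp.1, hH.2 p⟩, fun h2 => hp.2 ?_⟩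
  filter_upwards [(tendsto_right H p).eventually h2] with y hy
  obtain ⟨z, hz, hz1⟩ := hy
  rw [← hH.2] at hz1
  rwa [← h.injective hz1]

theorem fix_conj (g h : Equiv.Perm S1) : Fix (h * g * h⁻¹) = h '' Fix g := by
  ext q
  constructor
  · intro hq
    refine ⟨h⁻¹ q, ?_, by simp⟩
    show g (h⁻¹ q) = h⁻¹ q
    rw [Equiv.Perm.eq_inv_iff_eq]
    exact hq
  · rintro ⟨y, hy, rfl⟩
    show h (g (h.symm (h y))) = h y
    rw [h.symm_apply_apply, show g y = y from hy]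

theorem rb_conj {g h : Equiv.Perm S1} {H : ℝ ≃o ℝ} (hH : IsLift h H) {q : S1}
    (hq : q ∈ RB (Fix g)) : h q ∈ RB (Fix (h * g * h⁻¹)) := by
  rw [fix_conj]
  exact rb_image hH hq

theorem rb_conj_iff {g h : Equiv.Perm S1} {H : ℝ ≃o ℝ} (hH : IsLift h H) :
    RB (Fix (h * g * h⁻¹)) = h '' RB (Fix g) := by
  ext q
  constructor
  · intro hq
    refine ⟨h⁻¹ q, ?_, by simp⟩
    have h1 := rb_conj hH.inv hq
    have h2 : h⁻¹ * (h * g * h⁻¹) * h⁻¹⁻¹ = g := by group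
    rwa [h2] at h1
  · rintro ⟨y, hy, rfl⟩
    exact rb_conj hH hy

/-- if there are fixed points but no right boundary points, the map is trivial -/
theorem eq_one_of_rb_empty {g : Equiv.Perm S1} {F : ℝ ≃o ℝ} (hF : IsLift g F)
    (hne : (Fix g).Nonempty) (hrb : RB (Fix g) = ∅) : g = 1 := by
  obtain ⟨q, hq⟩ := hne
  obtain ⟨p, -, -, rfl⟩ := exists_rep q 0
  obtain ⟨n, hn⟩ := hF.fixing hq
  have hL := hF.tr n
  set L := CA.tr n * F
  have h1 : Icc p (p + 1) ⊆ {x | L x = x} := by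
    apply IsClosed.Icc_subset_of_forall_mem_nhdsWithin
    · exact (isClosed_eq L.continuous continuous_id).inter isClosed_Icc
    · exact hn
    · rintro x ⟨hx, -⟩
      have hx' : L x = x := hx
      by_contra hcon
      have h2 : (x : S1) ∈ RB (Fix g) := by
        rw [coe_mem_rb]
        refine ⟨hL.fix_coe hx', fun h3 => hcon ?_⟩
        filter_upwards [h3] with y hy
        exact hL.fix_of_fix hn hy
      rw [hrb] at h2
      exact h2
  ext q'
  obtain ⟨x, hx1, hx2, rfl⟩ := exists_rep q' p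
  exact hL.fix_coe (h1 ⟨hx1, hx2.le⟩)

/-- the right boundary of the set of fixed points of a piecewise analytic map is finite -/
theorem rb_finite {g : Equiv.Perm S1} (h : PAn g) : (RB (Fix g)).Finite := by
  by_contra hinf
  have hinf' : (RB (Fix g)).Infinite := hinf
  -- a real model
  set P : Set ℝ := RBr (Fix g) ∩ Icc 0 1 with hP
  have hPi : P.Infinite := by
    intro hfin
    apply hinf'
    refine (hfin.image (fun x : ℝ => (x : S1))).subset ?_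
    intro q hq
    obtain ⟨x, h1, h2, rfl⟩ := exists_rep q 0
    rw [zero_add] at h2
    exact ⟨x, ⟨coe_mem_rb.1 hq, h1, h2.le⟩, rfl⟩
  obtain ⟨q, hq, hacc⟩ := hPi.exists_accPt_of_subset_isCompact isCompact_Icc
    (inter_subset_right : P ⊆ Icc 0 1)
  rw [accPt_iff_frequently_nhdsNE, ← nhdsLT_sup_nhdsGT, frequently_sup] at hacc
  -- `q` gives a fixed point
  obtain ⟨p0, hp0, -⟩ := hPi.nonempty
  obtain ⟨L, hL, hLp, hLa⟩ := h.fixing (p := p0) hp0.1
  have hPfix : ∀ y ∈ P, L y = y := fun y hy => hL.fix_of_fix hLp hy.1.1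
  have hbad : ∀ y ∈ P, ¬ ∀ᶠ z in 𝓝[>] y, L z = z := by
    intro y hy hcon
    apply hy.1.2
    filter_upwards [hcon] with z hz
    exact hL.fix_coe hz
  have hnear : ∀ l : Filter ℝ, l ≤ 𝓝[≠] q → (∃ᶠ y in l, y ∈ P) →
      ∀ A : ℝ → ℝ, AnalyticAt ℝ A q → (∀ᶠ y in l, L y = A y) → ∀ᶠ y in 𝓝 q, A y = y := by
    intro l hl hf A hA he
    have h1 : ∃ᶠ y in l, A y = y := by
      refine (hf.and_eventually he).mono ?_
      rintro y ⟨hy, hy2⟩
      rw [← hy2]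
      exact hPfix y hy
    have h2 : ∃ᶠ y in 𝓝[≠] q, A y = y := h1.filter_mono hl
    exact (AnalyticAt.frequently_eq_iff_eventually_eq hA analyticAt_id).1 h2
  rcases hacc with hacc | hacc
  · -- from the left
    obtain ⟨A, hA, -, he⟩ := (hLa q).2
    have he' : ∀ᶠ y in 𝓝[<] q, L y = A y :=
      he.filter_mono (nhdsWithin_mono _ Iio_subset_Iic_self)
    have h1 := hnear _ (by rw [← nhdsLT_sup_nhdsGT]; exact le_sup_left) hacc A hA he'
    have h2 : ∀ᶠ y in 𝓝[<] q, L y = y := by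
      filter_upwards [he', h1.filter_mono nhdsWithin_le_nhds] with y h3 h4
      rw [h3, h4]
    obtain ⟨a, ha, ha2⟩ := (mem_nhdsLT_iff_exists_Ioo_subset).1 h2
    have h3 : ∀ᶠ y in 𝓝[<] q, y ∈ Ioo a q := Ioo_mem_nhdsLT ha
    obtain ⟨y, hyP, hy⟩ := (hacc.and_eventually h3).exists
    apply hbad y hyP
    have h4 : Ioo a q ∈ 𝓝 y := isOpen_Ioo.mem_nhds hy
    filter_upwards [mem_nhdsWithin_of_mem_nhds h4] with z hz
    exact ha2 hz
  · obtain ⟨A, hA, -, he⟩ := (hLa q).1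
    have he' : ∀ᶠ y in 𝓝[>] q, L y = A y :=
      he.filter_mono (nhdsWithin_mono _ Ioi_subset_Ici_self)
    have h1 := hnear _ (by rw [← nhdsLT_sup_nhdsGT]; exact le_sup_right) hacc A hA he'
    have h2 : ∀ᶠ y in 𝓝[>] q, L y = y := by
      filter_upwards [he', h1.filter_mono nhdsWithin_le_nhds] with y h3 h4
      rw [h3, h4]
    obtain ⟨a, ha, ha2⟩ := (mem_nhdsGT_iff_exists_Ioo_subset).1 h2
    have h3 : ∀ᶠ y in 𝓝[>] q, y ∈ Ioo q a := Ioo_mem_nhdsGT ha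
    obtain ⟨y, hyP, hy⟩ := (hacc.and_eventually h3).exists
    apply hbad y hyP
    have h4 : Ioo q a ∈ 𝓝 y := isOpen_Ioo.mem_nhds hy
    filter_upwards [mem_nhdsWithin_of_mem_nhds h4] with z hz
    exact ha2 hz

end Pool.Agent.K6.H58.CA
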