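import Pool.Agent.K6.H58.CA.Cross
import Pool.Agent.K6.H58.CA.RB

/-!
# Without free semigroups the components of the supports are equal or disjoint
-/

set_option autoImplicit false

namespace Pool.Agent.K6.H58.CA

open Filter Topology Set

theorem exists_comp {F : ℝ ≃o ℝ} (hper : ∀ x, F (x + 1) = F x + 1) {p x : ℝ} (hp : F p = p)
    (hx : F x ≠ x) : ∃ a b, Comp F a b ∧ a < x ∧ x < b := by
  have hcl : IsClosed {y | F y = y} := isClosed_eq F.continuous continuous_id
  obtain ⟨m, hm⟩ := exists_int_lt (x - p)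
  obtain ⟨m', hm'⟩ := exists_int_gt (x - p)
  have hfix : ∀ n : ℤ, F (p + n) = p + n := fun n => by rw [per_int hper, hp]
  set A := {y | F y = y} ∩ Iic x with hA
  set B := {y | F y = y} ∩ Ici x with hB
  have hAcl : IsClosed A := hcl.inter isClosed_Iic
  have hBcl : IsClosed B := hcl.inter isClosed_Ici
  have hAne : A.Nonempty := ⟨p + m, hfix m, by show p + m ≤ x; linarith⟩
  have hBne : B.Nonempty := ⟨p + m', hfix m', by show x ≤ p + m'; linarith⟩
  have hAb : BddAbove A := ⟨x, fun y hy => hy.2⟩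
  have hBb : BddBelow B := ⟨x, fun y hy => hy.2⟩
  have ha := hAcl.csSup_mem hAne hAb
  have hb := hBcl.csInf_mem hBne hBb
  set a := sSup A
  set b := sInf B
  have hax : a < x := lt_of_le_of_ne ha.2 (fun e => hx (e ▸ ha.1))
  have hxb : x < b := lt_of_le_of_ne hb.2 (fun e => hx (by rw [e]; exact hb.1))
  refine ⟨a, b, ⟨hax.trans hxb, ha.1, hb.1, ?_⟩, hax, hxb⟩
  intro z hz e
  rcases le_total z x with h | h
  · exact absurd (le_csSup hAb ⟨e, h⟩) (not_le.2 hz.1)
  · exact absurd (csInf_le hBb ⟨e, h⟩) (not_le.2 hz.2)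

theorem exists_comp_right {F : ℝ ≃o ℝ} (hper : ∀ x, F (x + 1) = F x + 1) {a c : ℝ}
    (ha : F a = a) (hac : a < c) (hc : F c = c) (han : AnR F a)
    (hnt : ¬ ∀ᶠ y in 𝓝[>] a, F y = y) : ∃ β, β ≤ c ∧ Comp F a β := by
  obtain ⟨A, hA, -, he⟩ := han
  have he1 : ∀ᶠ y in 𝓝[>] a, F y = A y := he.filter_mono (nhdsWithin_mono _ Ioi_subset_Ici_self)
  have h1 : AnalyticAt ℝ (fun y => A y - y) a := hA.sub analyticAt_id
  have h2 : ∀ᶠ y in 𝓝[>] a, F y ≠ y := by
    rcases h1.eventually_eq_zero_or_eventually_ne_zero with h | h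
    · exfalso
      apply hnt
      filter_upwards [he1, h.filter_mono nhdsWithin_le_nhds] with y h3 h4
      rw [h3]; linarith
    · have h5 : ∀ᶠ y in 𝓝[>] a, A y - y ≠ 0 := h.filter_mono (by
        rw [← nhdsLT_sup_nhdsGT]; exact le_sup_right)
      filter_upwards [he1, h5] with y h3 h4 h6
      apply h4
      rw [← h3, h6, sub_self]
  obtain ⟨r, hr, hr2⟩ := mem_nhdsGT_iff_exists_Ioo_subset.1 h2
  have hr' : a < r := hr
  have hx : (a + r) / 2 ∈ Ioo a r := ⟨by linarith, by linarith⟩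
  obtain ⟨α, β, hC, h3, h4⟩ := exists_comp hper ha (hr2 hx)
  have h5 : a ≤ α := by
    by_contra h
    push Not at h
    exact hC.ne a ⟨h, by linarith [hx.1]⟩ ha
  have h6 : α ≤ a := by
    by_contra h
    push Not at h
    exact hr2 ⟨h, by linarith [hx.2]⟩ hC.fa
  have h7 : α = a := le_antisymm h6 h5
  subst h7
  refine ⟨β, ?_, hC⟩
  by_contra h
  push Not at h
  exact hC.ne c ⟨hac, h⟩ hc

theorem exists_comp_left {F : ℝ ≃o ℝ} (hper : ∀ x, F (x + 1) = F x + 1) {b c : ℝ}
    (hb : F b = b) (hcb : c < b) (hc : F c = c) (han : AnL F b)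
    (hnt : ¬ ∀ᶠ y in 𝓝[<] b, F y = y) : ∃ α, c ≤ α ∧ Comp F α b := by
  obtain ⟨A, hA, -, he⟩ := han
  have he1 : ∀ᶠ y in 𝓝[<] b, F y = A y := he.filter_mono (nhdsWithin_mono _ Iio_subset_Iic_self)
  have h1 : AnalyticAt ℝ (fun y => A y - y) b := hA.sub analyticAt_id
  have h2 : ∀ᶠ y in 𝓝[<] b, F y ≠ y := by
    rcases h1.eventually_eq_zero_or_eventually_ne_zero with h | h
    · exfalso
      apply hnt
      filter_upwards [he1, h.filter_mono nhdsWithin_le_nhds] with y h3 h4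
      rw [h3]; linarith
    · have h5 : ∀ᶠ y in 𝓝[<] b, A y - y ≠ 0 := h.filter_mono (by
        rw [← nhdsLT_sup_nhdsGT]; exact le_sup_left)
      filter_upwards [he1, h5] with y h3 h4 h6
      apply h4
      rw [← h3, h6, sub_self]
  obtain ⟨r, hr, hr2⟩ := mem_nhdsLT_iff_exists_Ioo_subset.1 h2
  have hr' : r < b := hr
  have hx : (r + b) / 2 ∈ Ioo r b := ⟨by linarith, by linarith⟩
  obtain ⟨α, β, hC, h3, h4⟩ := exists_comp hper hb (hr2 hx)
  have h5 : β ≤ b := by
    by_contra h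
    push Not at h
    exact hC.ne b ⟨by linarith [hx.2], h⟩ hb
  have h6 : b ≤ β := by
    by_contra h
    push Not at h
    exact hr2 ⟨by linarith [hx.1], h⟩ hC.fb
  have h7 : β = b := le_antisymm h5 h6
  subst h7
  refine ⟨α, ?_, hC⟩
  by_contra h
  push Not at h
  exact hC.ne c ⟨h, hcb⟩ hc

theorem PAn.an {g : Equiv.Perm S1} (h : PAn g) {F : ℝ ≃o ℝ} (hF : IsLift g F) {p : ℝ}
    (hp : F p = p) (x : ℝ) : AnR F x ∧ AnL F x := by
  obtain ⟨L, hL, hLp, hLa⟩ := h.fixing (hF.fix_coe hp)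
  have e := hF.unique hL hp hLp
  subst e
  exact hLa x

variable {K : Type*} [Group K] {φ : K →* Equiv.Perm S1}

theorem nestA (hN : NFS K) (hP : ∀ k, PAn (φ k)) {k k' : K} {F F' : ℝ ≃o ℝ}
    (hF : IsLift (φ k) F) (hF' : IsLift (φ k') F') {a b a' b' : ℝ} (hC : Comp F a b)
    (hC' : Comp F' a' b') (h1 : a' < a) (h2 : a < b') : False := by
  -- reduce to the case where `F'` moves up
  have main : ∀ {k' : K} {F' : ℝ ≃o ℝ}, IsLift (φ k') F' → Comp F' a' b' → Up F' a' b' →
      False := by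
    intro k' F' hF' hC' hu
    have hFa : b ≤ F' a := by
      rcases eq_or_disj hN hF hF' hC with h | h | h
      · exact absurd h.1 (hu a ⟨h1, h2⟩).ne'
      · have h3 := F'.strictMono hC.lt
        have h4 := hu a ⟨h1, h2⟩
        linarith
      · exact h
    have hFab : F' a < b' := by
      have := F'.strictMono h2
      rwa [hC'.fb] at this
    have hbb : b < b' := hFa.trans_lt hFab
    have hfix : F a' = a' ∧ F b' = b' := by
      rcases eq_or_disj hN hF' hF hC' with h | h | h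
      · exact h
      · have h3 := F.strictMono h2
        rw [hC.fa] at h3
        linarith
      · have h3 := F.strictMono h1
        rw [hC.fa] at h3
        linarith
    have htr : ∀ᶠ y in 𝓝[>] a', F y = y := by
      by_contra hnt
      obtain ⟨β, hβ, hCβ⟩ := exists_comp_right hF.1 hfix.1 h1 hC.fa
        ((hP k).an hF hC.fa a').1 hnt
      have hβI : β ∈ Ioo a' b' := ⟨hCβ.lt, by linarith⟩
      rcases eq_or_disj hN hF hF' hCβ with h | h | h
      · exact absurd h.2 (hu β hβI).ne'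
      · have := hu β hβI
        linarith [hβI.1]
      · rw [hC'.fa] at h
        linarith [hβI.1]
    have htl : ∀ᶠ y in 𝓝[<] b', F y = y := by
      by_contra hnt
      obtain ⟨α, hα, hCα⟩ := exists_comp_left hF.1 hfix.2 hbb hC.fb
        ((hP k).an hF hC.fa b').2 hnt
      have hαI : α ∈ Ioo a' b' := ⟨by linarith [hC.lt], hCα.lt⟩
      rcases eq_or_disj hN hF hF' hCα with h | h | h
      · exact absurd h.1 (hu α hαI).ne'
      · rw [hC'.fb] at h
        linarith [hαI.2]
      · have := F'.strictMono hαI.2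
        rw [hC'.fb] at this
        linarith
    obtain ⟨r, hr, hr2⟩ := mem_nhdsGT_iff_exists_Ioo_subset.1 htr
    obtain ⟨s, hs, hs2⟩ := mem_nhdsLT_iff_exists_Ioo_subset.1 htl
    have hr' : a' < r := hr
    have hs' : s < b' := hs
    obtain ⟨a'', ha1, ha2⟩ := exists_between (lt_min hr' h1)
    obtain ⟨b'', hb1, hb2⟩ := exists_between (max_lt hs' hbb)
    have ha2r := ha2.trans_le (min_le_left _ _)
    have ha2a := ha2.trans_le (min_le_right _ _)
    have hb1s := (le_max_left _ _).trans_lt hb1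
    have hb1b := (le_max_right _ _).trans_lt hb1
    have hFa'' : F a'' = a'' := hr2 ⟨ha1, ha2r⟩
    have hFright : ∀ y, b'' ≤ y → y < b' → F y = y := fun y hy hy2 =>
      hs2 ⟨hb1s.trans_le hy, hy2⟩
    have hab : a'' < b'' := by linarith [hC.lt]
    have ht := hC'.conv_b hF'.1 hu (x := a'') ⟨ha1, by linarith⟩
    obtain ⟨N, hN1⟩ := (ht.eventually_const_lt hb2).exists
    -- the images of `[a'', b'']`
    have hφ : ∀ (j : ℕ) (y : ℝ), (φ (k' ^ N) ^ j) (y : S1) = (((F' ^ N) ^ j) y : ℝ) := by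
      intro j y
      rw [map_pow]
      exact ((hF'.pow N).pow j).2 y
    have hmono : ∀ y ∈ Ioo a' b', y ≤ (F' ^ N) y := by
      intro y hy
      rcases Nat.eq_zero_or_pos N with h0 | h0
      · rw [h0]; exact le_refl _
      · exact (lt_pow_of_lt (hu y hy) h0).le
    have hit : ∀ j : ℕ, 1 ≤ j → ∀ y ∈ Icc a'' b'', b'' < ((F' ^ N) ^ j) y ∧
        ((F' ^ N) ^ j) y < b' := by
      intro j hj y hy
      induction j, hj using Nat.le_induction with
      | base =>
        rw [pow_one]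
        refine ⟨hN1.trans_le ((F' ^ N).monotone hy.1), ?_⟩
        exact (hC'.maps (x := y) ⟨by linarith [hy.1], by linarith [hy.2]⟩ N).2
      | succ j hj ih =>
        rw [pow_succ']
        show b'' < (F' ^ N) (((F' ^ N) ^ j) y) ∧ (F' ^ N) (((F' ^ N) ^ j) y) < b'
        have h3 : ((F' ^ N) ^ j) y ∈ Ioo a' b' := ⟨by linarith [ih.1], ih.2⟩
        exact ⟨ih.1.trans_le (hmono _ h3), (hC'.maps h3 N).2⟩
    have hle := hC'.le_one hF'.1
    obtain ⟨l, l', hne, hl⟩ := hN (k' ^ N) (k' ^ N * k)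
    apply hne
    refine semi_wreath (φ := φ) (k' ^ N) k (C := (fun x : ℝ => (x : S1)) '' Icc a'' b'')
      ?_ ?_ ?_ ?_ l l' hl
    · rintro _ ⟨y, hy, rfl⟩
      refine ⟨F y, ⟨?_, ?_⟩, (hF.2 y).symm⟩
      · rw [← hFa'']; exact F.monotone hy.1
      · rw [← hFright b'' le_rfl hb2]; exact F.monotone hy.2
    · rintro j hj _ ⟨y, hy, rfl⟩
      show φ k ((φ (k' ^ N) ^ j) (y : S1)) = (φ (k' ^ N) ^ j) (y : S1)
      rw [hφ]
      exact hF.fix_coe (hFright _ (hit j hj y hy).1.le (hit j hj y hy).2)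
    · rintro j hj _ ⟨y, hy, rfl⟩ ⟨z, hz, he⟩
      have he' : (z : S1) = (((F' ^ N) ^ j) y : ℝ) := by
        rw [← hφ]; exact he
      have h3 := hit j hj y hy
      exact coe_ne (by linarith [hz.2]) (by linarith [hz.1]) he'
    · have hc : (a + b) / 2 ∈ Ioo a b := ⟨by linarith [hC.lt], by linarith [hC.lt]⟩
      refine ⟨_, ⟨(a + b) / 2, ⟨by linarith [hc.1], by linarith [hc.2]⟩, rfl⟩, ?_⟩
      intro h
      exact hC.ne _ hc (hF.fix_of_fix hC.fa h)
  rcases hC'.sign with h | h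
  · exact main hF' hC' h
  · have h3 : IsLift (φ k'⁻¹) F'⁻¹ := by rw [map_inv]; exact hF'.inv
    exact main h3 hC'.inv (Up.of_dn_inv h)

/-- components are equal or disjoint -/
theorem comp_eq (hN : NFS K) (hP : ∀ k, PAn (φ k)) {k k' : K} {F F' : ℝ ≃o ℝ}
    (hF : IsLift (φ k) F) (hF' : IsLift (φ k') F') {a b a' b' : ℝ} (hC : Comp F a b)
    (hC' : Comp F' a' b') (h1 : a < b') (h2 : a' < b) : a = a' ∧ b = b' := by
  have haa : a = a' := by
    rcases lt_trichotomy a a' with h | h | h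
    · exact (nestA hN hP hF' hF hC' hC h h2).elim
    · exact h
    · exact (nestA hN hP hF hF' hC hC' h h1).elim
  subst haa
  refine ⟨rfl, ?_⟩
  rcases lt_trichotomy b b' with h | h | h
  · exfalso
    rcases eq_or_disj hN hF hF' hC with h3 | h3 | h3
    · exact hC'.ne b ⟨hC.lt, h⟩ h3.2
    · have := F'.strictMono hC.lt
      rw [hC'.fa] at this
      linarith
    · rw [hC'.fa] at h3
      linarith [hC.lt]
  · exact h
  · exfalso
    rcases eq_or_disj hN hF' hF hC' with h3 | h3 | h3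
    · exact hC.ne b' ⟨hC'.lt, h⟩ h3.2
    · have := F.strictMono hC'.lt
      rw [hC.fa] at this
      linarith
    · rw [hC.fa] at h3
      linarith [hC'.lt]

end Pool.Agent.K6.H58.CA
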