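import Pool.Agent.K6.H58.CA.Base

/-!
# Ping-pong for two homeomorphisms of the circle with disjoint nonempty sets of fixed points
-/

set_option autoImplicit false

namespace Pool.Agent.K6.H58.CA

open Filter Topology Set
open scoped Pointwise

/-- the ping-pong lemma with one set for each generator -/
theorem ping2 {α : Type} {a : Fin 2 → Equiv.Perm α} (X : Fin 2 → Set α)
    (hne : ∀ i, (X i).Nonempty) (hdisj : Disjoint (X 0) (X 1))
    (h : ∀ i j, i ≠ j → ∀ n : ℤ, n ≠ 0 → ∀ x ∈ X j, ((a i) ^ n) x ∈ X i) :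
    Function.Injective (FreeGroup.lift a) := by
  have : FreeGroup.lift a =
      (Monoid.CoprodI.lift fun i => FreeGroup.lift fun _ => a i).comp
        (@freeGroupEquivCoprodI (Fin 2)).toMonoidHom := by
    ext i
    simp
  rw [this, MonoidHom.coe_comp]
  clear this
  refine Function.Injective.comp ?_ (MulEquiv.injective freeGroupEquivCoprodI)
  change Function.Injective (Monoid.CoprodI.lift fun i : Fin 2 => FreeGroup.lift fun _ => a i)
  let H : Fin 2 → Type := fun _i => FreeGroup Unit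
  let f : ∀ i, H i →* Equiv.Perm α := fun i => FreeGroup.lift fun _ => a i
  apply Monoid.CoprodI.lift_injective_of_ping_pong f _ X
  · exact hne
  · intro i j hij
    fin_cases i <;> fin_cases j
    · exact absurd rfl hij
    · exact hdisj
    · exact hdisj.symm
    · exact absurd rfl hij
  · change Pairwise fun i j => ∀ h : H i, h ≠ 1 → f i h • X j ⊆ X i
    rintro i j hij
    refine FreeGroup.freeGroupUnitEquivInt.forall_congr_left.mpr ?_
    intro n hne1
    change FreeGroup.lift (fun _ => a i) (FreeGroup.of () ^ n) • X j ⊆ X i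
    simp only [map_zpow, FreeGroup.lift_apply_of]
    change a i ^ n • X j ⊆ X i
    have hnne0 : n ≠ 0 := by
      rintro rfl
      apply hne1
      simp [H, FreeGroup.freeGroupUnitEquivInt]
    rintro _ ⟨x, hx, rfl⟩
    exact h i j hij n hnne0 x hx
  · right
    refine ⟨0, ?_⟩
    simp only [H]
    rw [FreeGroup.freeGroupUnitEquivInt.cardinal_eq, Cardinal.mk_denumerable]
    exact Cardinal.natCast_le_aleph0

theorem conv_up {F : ℝ ≃o ℝ} (hper : ∀ x, F (x + 1) = F x + 1) {p : ℝ} (hp : F p = p) {y : ℝ}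
    (hy : y < F y) : ∃ b, F b = b ∧ Tendsto (fun n : ℕ => (F ^ n) y) atTop (𝓝 b) := by
  have hmono : Monotone (fun n : ℕ => (F ^ n) y) := by
    apply monotone_nat_of_le_succ
    intro n
    show (F ^ n) y ≤ (F ^ (n + 1)) y
    rw [pow_succ]
    exact (F ^ n).monotone hy.le
  obtain ⟨m, hm⟩ := exists_int_gt (y - p)
  have hbdd : BddAbove (range (fun n : ℕ => (F ^ n) y)) := by
    refine ⟨p + m, ?_⟩
    rintro _ ⟨n, rfl⟩
    show (F ^ n) y ≤ p + m
    have h1 : F (p + m) = p + m := by rw [per_int hper, hp]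
    have h2 := (F ^ n).monotone (show y ≤ p + m by linarith)
    rwa [pow_fix h1] at h2
  have h1 := tendsto_atTop_ciSup hmono hbdd
  refine ⟨_, ?_, h1⟩
  have h2 : Tendsto (fun n : ℕ => (F ^ (n + 1)) y) atTop (𝓝 (⨆ n : ℕ, (F ^ n) y)) :=
    (tendsto_add_atTop_iff_nat 1).2 h1
  have h3 : Tendsto (fun n : ℕ => (F ^ (n + 1)) y) atTop (𝓝 (F (⨆ n : ℕ, (F ^ n) y))) := by
    have := (F.continuous.tendsto _).comp h1
    refine this.congr (fun n => ?_)
    rw [pow_succ']
    rfl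
  exact tendsto_nhds_unique h3 h2

theorem conv_down {F : ℝ ≃o ℝ} (hper : ∀ x, F (x + 1) = F x + 1) {p : ℝ} (hp : F p = p) {y : ℝ}
    (hy : F y < y) : ∃ b, F b = b ∧ Tendsto (fun n : ℕ => (F ^ n) y) atTop (𝓝 b) := by
  have hmono : Antitone (fun n : ℕ => (F ^ n) y) := by
    apply antitone_nat_of_succ_le
    intro n
    show (F ^ (n + 1)) y ≤ (F ^ n) y
    rw [pow_succ]
    exact (F ^ n).monotone hy.le
  obtain ⟨m, hm⟩ := exists_int_lt (y - p)
  have hbdd : BddBelow (range (fun n : ℕ => (F ^ n) y)) := by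
    refine ⟨p + m, ?_⟩
    rintro _ ⟨n, rfl⟩
    show p + m ≤ (F ^ n) y
    have h1 : F (p + m) = p + m := by rw [per_int hper, hp]
    have h2 := (F ^ n).monotone (show p + m ≤ y by linarith)
    rwa [pow_fix h1] at h2
  have h1 := tendsto_atTop_ciInf hmono hbdd
  refine ⟨_, ?_, h1⟩
  have h2 : Tendsto (fun n : ℕ => (F ^ (n + 1)) y) atTop (𝓝 (⨅ n : ℕ, (F ^ n) y)) :=
    (tendsto_add_atTop_iff_nat 1).2 h1
  have h3 : Tendsto (fun n : ℕ => (F ^ (n + 1)) y) atTop (𝓝 (F (⨅ n : ℕ, (F ^ n) y))) := by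
    have := (F.continuous.tendsto _).comp h1
    refine this.congr (fun n => ?_)
    rw [pow_succ']
    rfl
  exact tendsto_nhds_unique h3 h2

theorem unif_near {g : Equiv.Perm S1} {F : ℝ ≃o ℝ} (hF : IsLift g F) {p : ℝ} (hp : F p = p)
    {U : Set S1} (hU : IsOpen U) (hFU : Fix g ⊆ U) {x : ℝ} (hx : F x ≠ x) :
    ∃ V ∈ 𝓝 x, ∀ᶠ n : ℕ in atTop, ∀ y ∈ V, (((F ^ n) y : ℝ) : S1) ∈ U := by
  -- it is enough to squeeze
  have key : ∀ (y : ℝ) (b : ℝ), F b = b → Tendsto (fun n : ℕ => (F ^ n) y) atTop (𝓝 b) →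
      ∀ᶠ n : ℕ in atTop, ∀ z, ((F ^ n) y ≤ z ∧ z ≤ (F ^ (n + 1)) y) ∨
        ((F ^ (n + 1)) y ≤ z ∧ z ≤ (F ^ n) y) → ((z : ℝ) : S1) ∈ U := by
    intro y b hb ht
    have ht2 : Tendsto (fun n : ℕ => (F ^ (n + 1)) y) atTop (𝓝 b) :=
      (tendsto_add_atTop_iff_nat 1).2 ht
    have hbU : (b : S1) ∈ U := hFU (hF.fix_coe hb)
    have hc : Continuous (fun z : ℝ => (z : S1)) := AddCircle.continuous_mk' _
    have hW : (fun z : ℝ => (z : S1)) ⁻¹' U ∈ 𝓝 b := (hU.preimage hc).mem_nhds hbU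
    obtain ⟨ε, hε, hball⟩ := Metric.mem_nhds_iff.1 hW
    have hB : Metric.ball b ε ∈ 𝓝 b := Metric.ball_mem_nhds b hε
    filter_upwards [ht.eventually hB, ht2.eventually hB] with n h1 h2 z hz
    apply hball
    rw [Metric.mem_ball]
    rw [Real.dist_eq, abs_lt] at h1 h2 ⊢
    rcases hz with hz | hz
    · exact ⟨by linarith [h1.1, hz.1], by linarith [h2.2, hz.2]⟩
    · exact ⟨by linarith [h2.1, hz.1], by linarith [h1.2, hz.2]⟩
  rcases lt_or_gt_of_ne hx with hlt | hgt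
  · have h1 : ∀ᶠ y in 𝓝[>] x, F y < x :=
      ((F.continuous.tendsto x).eventually_lt_const hlt).filter_mono nhdsWithin_le_nhds
    obtain ⟨y2, hy2, hy2'⟩ := (h1.and self_mem_nhdsWithin).exists
    have hy2'' : x < y2 := hy2'
    obtain ⟨b, hb, ht⟩ := conv_down hF.1 hp (show F y2 < y2 by linarith)
    refine ⟨Ioo (F y2) y2, Ioo_mem_nhds hy2 hy2'', ?_⟩
    filter_upwards [key y2 b hb ht] with n hn y hy
    apply hn
    right
    refine ⟨?_, (F ^ n).monotone hy.2.le⟩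
    rw [pow_succ]
    exact (F ^ n).monotone hy.1.le
  · have h1 : ∀ᶠ y in 𝓝[<] x, x < F y :=
      ((F.continuous.tendsto x).eventually_const_lt hgt).filter_mono nhdsWithin_le_nhds
    obtain ⟨y1, hy1, hy1'⟩ := (h1.and self_mem_nhdsWithin).exists
    have hy1'' : y1 < x := hy1'
    obtain ⟨b, hb, ht⟩ := conv_up hF.1 hp (show y1 < F y1 by linarith)
    refine ⟨Ioo y1 (F y1), Ioo_mem_nhds hy1'' hy1, ?_⟩
    filter_upwards [key y1 b hb ht] with n hn y hy
    apply hn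
    left
    refine ⟨(F ^ n).monotone hy.1.le, ?_⟩
    rw [pow_succ]
    exact (F ^ n).monotone hy.2.le

theorem unif {g : Equiv.Perm S1} {F : ℝ ≃o ℝ} (hF : IsLift g F) (hne : (Fix g).Nonempty)
    {U : Set S1} (hU : IsOpen U) (hFU : Fix g ⊆ U) :
    ∀ᶠ n : ℕ in atTop, ∀ q ∉ U, (g ^ n) q ∈ U := by
  obtain ⟨q0, hq0⟩ := hne
  obtain ⟨p, -, -, rfl⟩ := exists_rep q0 0
  obtain ⟨m, hm⟩ := hF.fixing hq0
  have hL := hF.tr m
  set L := CA.tr m * F
  have hcomp : IsCompact Uᶜ := hU.isClosed_compl.isCompact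
  refine hcomp.induction_on (p := fun S => ∀ᶠ n : ℕ in atTop, ∀ q ∈ S, (g ^ n) q ∈ U) ?_ ?_ ?_ ?_
  · exact Eventually.of_forall fun n q hq => absurd hq (notMem_empty q)
  · intro s t hst h
    filter_upwards [h] with n hn q hq
    exact hn q (hst hq)
  · intro s t hs ht
    filter_upwards [hs, ht] with n h1 h2 q hq
    rcases hq with hq | hq
    · exact h1 q hq
    · exact h2 q hq
  · intro q hq
    obtain ⟨x, -, -, rfl⟩ := exists_rep q 0
    have hx : L x ≠ x := fun h => hq (hFU (hL.fix_coe h))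
    obtain ⟨V, hV, hV2⟩ := unif_near hL hm hU hFU hx
    refine ⟨(fun z : ℝ => (z : S1)) '' V, ?_, ?_⟩
    · apply mem_nhdsWithin_of_mem_nhds
      exact (QuotientAddGroup.isOpenMap_coe (N := AddSubgroup.zmultiples (1 : ℝ))).image_mem_nhds hV
    · filter_upwards [hV2] with n hn
      rintro _ ⟨y, hy, rfl⟩
      show (g ^ n) (y : S1) ∈ U
      rw [(hL.pow n).2]
      exact hn y hy

theorem fix_closed {g : Equiv.Perm S1} {F : ℝ ≃o ℝ} (hF : IsLift g F) (hne : (Fix g).Nonempty) :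
    IsClosed (Fix g) := by
  obtain ⟨q0, hq0⟩ := hne
  obtain ⟨p, -, -, rfl⟩ := exists_rep q0 0
  obtain ⟨m, hm⟩ := hF.fixing hq0
  have hL := hF.tr m
  set L := CA.tr m * F
  have h1 : (fun z : ℝ => (z : S1)) ⁻¹' (Fix g) = {x | L x = x} := by
    ext x
    exact ⟨fun h => hL.fix_of_fix hm h, fun h => hL.fix_coe h⟩
  rw [← (QuotientAddGroup.isQuotientMap_mk
    (N := AddSubgroup.zmultiples (1 : ℝ))).isClosed_preimage]
  exact h1 ▸ isClosed_eq L.continuous continuous_id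

theorem fix_inv (g : Equiv.Perm S1) : Fix g⁻¹ = Fix g := by
  ext q
  show g⁻¹ q = q ↔ g q = q
  rw [Equiv.Perm.inv_eq_iff_eq]
  exact eq_comm

/-- two homeomorphisms with disjoint nonempty sets of fixed points: some powers generate a free
group -/
theorem ping_pong {g g' : Equiv.Perm S1} {F F' : ℝ ≃o ℝ} (hF : IsLift g F) (hF' : IsLift g' F')
    (hne : (Fix g).Nonempty) (hne' : (Fix g').Nonempty) (hdisj : Disjoint (Fix g) (Fix g')) :
    ∃ N : ℕ, 0 < N ∧ Function.Injective (FreeGroup.lift ![g ^ N, g' ^ N]) := by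
  have hcl := fix_closed hF hne
  have hcl' := fix_closed hF' hne'
  obtain ⟨U, U', hU, hU', hs, hs', hd⟩ := SeparatedNhds.of_isCompact_isCompact hcl.isCompact
    hcl'.isCompact hdisj
  have h1 := unif hF hne hU hs
  have h2 := unif hF.inv (by rw [fix_inv]; exact hne) hU (by rw [fix_inv]; exact hs)
  have h3 := unif hF' hne' hU' hs'
  have h4 := unif hF'.inv (by rw [fix_inv]; exact hne') hU' (by rw [fix_inv]; exact hs')
  obtain ⟨N, hN⟩ := eventually_atTop.1 (h1.and (h2.and (h3.and (h4.and (eventually_gt_atTop 0)))))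
  have hN0 : 0 < N := (hN N le_rfl).2.2.2.2
  refine ⟨N, hN0, ping2 ![U, U'] ?_ hd ?_⟩
  · intro i
    fin_cases i
    · exact hne.mono hs
    · exact hne'.mono hs'
  · have hmain : ∀ (f : Equiv.Perm S1) (W : Set S1),
        (∀ n : ℕ, N ≤ n → (∀ q ∉ W, (f ^ n) q ∈ W) ∧ ∀ q ∉ W, (f⁻¹ ^ n) q ∈ W) →
        ∀ n : ℤ, n ≠ 0 → ∀ q ∉ W, ((f ^ N) ^ n) q ∈ W := by
      intro f W h n hn q hq
      rw [← zpow_natCast, ← zpow_mul]
      obtain ⟨k, hk⟩ : ∃ k : ℕ, k = n.natAbs := ⟨_, rfl⟩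
      have hk0 : 0 < k := by rw [hk]; exact Int.natAbs_pos.2 hn
      rcases Int.natAbs_eq n with e | e
      · rw [e, ← Nat.cast_mul, zpow_natCast]
        exact (h (N * n.natAbs) (Nat.le_mul_of_pos_right _ (hk ▸ hk0))).1 q hq
      · rw [e, mul_neg, ← Nat.cast_mul, zpow_neg, zpow_natCast, ← inv_pow]
        exact (h (N * n.natAbs) (Nat.le_mul_of_pos_right _ (hk ▸ hk0))).2 q hq
    intro i j hij n hn x hx
    fin_cases i <;> fin_cases j
    · exact absurd rfl hij
    · refine hmain g U (fun m hm => ⟨(hN m hm).1, (hN m hm).2.1⟩) n hn x ?_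
      exact fun hxU => Set.disjoint_left.1 hd hxU hx
    · refine hmain g' U' (fun m hm => ⟨(hN m hm).2.2.1, (hN m hm).2.2.2.1⟩) n hn x ?_
      exact fun hxU => Set.disjoint_left.1 hd hx hxU
    · exact absurd rfl hij

end Pool.Agent.K6.H58.CA
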