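import Pool.Agent.K6.H58.CA.Conj
import Pool.Agent.H698R4.Malcev

/-!
# Piecewise projective homeomorphisms and divisible elements
-/

set_option autoImplicit false

namespace Pool.Agent.K6.H58.CA

open Filter Topology Set Matrix

/-- `F` is a fractional linear map on the right of `x` -/
def PrR (F : ℝ → ℝ) (x : ℝ) : Prop :=
  ∃ a b c d : ℝ, 0 < a * d - b * c ∧ c * x + d ≠ 0 ∧
    ∀ᶠ y in 𝓝[≥] x, F y = (a * y + b) / (c * y + d)

/-- `F` is a fractional linear map on the left of `x` -/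
def PrL (F : ℝ → ℝ) (x : ℝ) : Prop :=
  ∃ a b c d : ℝ, 0 < a * d - b * c ∧ c * x + d ≠ 0 ∧
    ∀ᶠ y in 𝓝[≤] x, F y = (a * y + b) / (c * y + d)

/-- orientation-preserving piecewise projective homeomorphisms -/
def PPr (g : Equiv.Perm S1) : Prop :=
  ∃ F : ℝ ≃o ℝ, IsLift g F ∧ ∀ x, PrR F x ∧ PrL F x

theorem mobius_an {a b c d x : ℝ} (hdet : 0 < a * d - b * c) (hx : c * x + d ≠ 0) :
    AnalyticAt ℝ (fun y => (a * y + b) / (c * y + d)) x ∧
      0 < deriv (fun y => (a * y + b) / (c * y + d)) x := by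
  have h1 : AnalyticAt ℝ (fun y : ℝ => a * y + b) x :=
    (analyticAt_const.mul analyticAt_id).add analyticAt_const
  have h2 : AnalyticAt ℝ (fun y : ℝ => c * y + d) x :=
    (analyticAt_const.mul analyticAt_id).add analyticAt_const
  refine ⟨h1.div h2 hx, ?_⟩
  have h3 : HasDerivAt (fun y : ℝ => a * y + b) a x := by
    simpa using ((hasDerivAt_id x).const_mul a).add_const b
  have h4 : HasDerivAt (fun y : ℝ => c * y + d) c x := by
    simpa using ((hasDerivAt_id x).const_mul c).add_const d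
  have h5 := (h3.div h4 hx).deriv
  have h6 : deriv (fun y => (a * y + b) / (c * y + d)) x =
      (a * (c * x + d) - (a * x + b) * c) / (c * x + d) ^ 2 := h5
  rw [h6]
  have h7 : a * (c * x + d) - (a * x + b) * c = a * d - b * c := by ring
  rw [h7]
  positivity

theorem PrR.anR {F : ℝ → ℝ} {x : ℝ} (h : PrR F x) : AnR F x := by
  obtain ⟨a, b, c, d, h1, h2, h3⟩ := h
  exact ⟨_, (mobius_an h1 h2).1, (mobius_an h1 h2).2, h3⟩

theorem PrL.anL {F : ℝ → ℝ} {x : ℝ} (h : PrL F x) : AnL F x := by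
  obtain ⟨a, b, c, d, h1, h2, h3⟩ := h
  exact ⟨_, (mobius_an h1 h2).1, (mobius_an h1 h2).2, h3⟩

theorem PPr.pan {g : Equiv.Perm S1} (h : PPr g) : PAn g := by
  obtain ⟨F, hF, hA⟩ := h
  exact ⟨F, hF, fun x => ⟨(hA x).1.anR, (hA x).2.anL⟩⟩

/-- the right germ of `F` at `x` is given by the matrix `M` -/
def GM (M : GL (Fin 2) ℝ) (F : ℝ → ℝ) (x : ℝ) : Prop :=
  M 1 0 * x + M 1 1 ≠ 0 ∧
    ∀ᶠ y in 𝓝[≥] x, F y = (M 0 0 * y + M 0 1) / (M 1 0 * y + M 1 1)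

theorem gm_one (x : ℝ) : GM 1 (1 : ℝ ≃o ℝ) x := by
  refine ⟨by simp, ?_⟩
  filter_upwards with y
  simp

theorem tendsto_ge (F : ℝ ≃o ℝ) (p : ℝ) : Tendsto F (𝓝[≥] p) (𝓝[≥] (F p)) := by
  refine tendsto_nhdsWithin_iff.2 ⟨?_, ?_⟩
  · exact (F.continuous.tendsto p).mono_left nhdsWithin_le_nhds
  · filter_upwards [self_mem_nhdsWithin] with y hy
    exact F.monotone hy

theorem gm_mul {M N : GL (Fin 2) ℝ} {F G : ℝ ≃o ℝ} {x : ℝ} (hF : GM M F (G x)) (hG : GM N G x) :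
    GM (M * N) (F * G : ℝ ≃o ℝ) x := by
  have hGx : G x = (N 0 0 * x + N 0 1) / (N 1 0 * x + N 1 1) :=
    hG.2.self_of_nhdsWithin self_mem_Ici
  have e : ∀ i j, (M * N : GL (Fin 2) ℝ) i j = M i 0 * N 0 j + M i 1 * N 1 j := by
    intro i j
    show ((M * N : GL (Fin 2) ℝ) : Matrix (Fin 2) (Fin 2) ℝ) i j = _
    rw [Matrix.GeneralLinearGroup.coe_mul, Matrix.mul_apply, Fin.sum_univ_two]
  have hcont : Continuous (fun y : ℝ => N 1 0 * y + N 1 1) := by fun_prop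
  have hN : ∀ᶠ y in 𝓝[≥] x, N 1 0 * y + N 1 1 ≠ 0 :=
    (hcont.continuousAt.eventually_ne hG.1).filter_mono nhdsWithin_le_nhds
  have hcont2 : Continuous (fun y : ℝ => M 1 0 * G y + M 1 1) := by
    have := G.continuous
    fun_prop
  have hM : ∀ᶠ y in 𝓝[≥] x, M 1 0 * G y + M 1 1 ≠ 0 :=
    (hcont2.continuousAt.eventually_ne hF.1).filter_mono nhdsWithin_le_nhds
  have key : ∀ y, N 1 0 * y + N 1 1 ≠ 0 → G y = (N 0 0 * y + N 0 1) / (N 1 0 * y + N 1 1) →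
      (M * N : GL (Fin 2) ℝ) 1 0 * y + (M * N : GL (Fin 2) ℝ) 1 1 =
        (M 1 0 * G y + M 1 1) * (N 1 0 * y + N 1 1) := by
    intro y hy hy2
    rw [e, e, hy2]
    field_simp
    ring
  have key2 : ∀ y, N 1 0 * y + N 1 1 ≠ 0 → G y = (N 0 0 * y + N 0 1) / (N 1 0 * y + N 1 1) →
      (M * N : GL (Fin 2) ℝ) 0 0 * y + (M * N : GL (Fin 2) ℝ) 0 1 =
        (M 0 0 * G y + M 0 1) * (N 1 0 * y + N 1 1) := by
    intro y hy hy2
    rw [e, e, hy2]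
    field_simp
    ring
  refine ⟨?_, ?_⟩
  · rw [key x hG.1 hGx]
    exact mul_ne_zero hF.1 hG.1
  · filter_upwards [hG.2, hN, (tendsto_ge G x).eventually hF.2] with y h1 h2 h3
    show F (G y) = _
    rw [key y h2 h1, key2 y h2 h1, h3, mul_div_mul_right _ _ h2]

theorem gm_pow {M : GL (Fin 2) ℝ} {F : ℝ ≃o ℝ} {p : ℝ} (hF : GM M F p) (hp : F p = p) (n : ℕ) :
    GM (M ^ n) (F ^ n : ℝ ≃o ℝ) p := by
  induction n with
  | zero => simpa using gm_one p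
  | succ n ih =>
    rw [pow_succ, pow_succ]
    apply gm_mul _ hF
    rw [hp]
    exact ih

theorem quad_zero {α β γ p : ℝ} (h : ∀ᶠ y in 𝓝[≥] p, α * y ^ 2 + β * y + γ = 0) :
    α = 0 ∧ β = 0 ∧ γ = 0 := by
  obtain ⟨u, hu, hu2⟩ := mem_nhdsGE_iff_exists_Ico_subset.1 h
  have hu' : p < u := hu
  set δ := (u - p) / 4 with hδ
  have hδ0 : 0 < δ := by rw [hδ]; linarith
  have h1 : α * (p + δ) ^ 2 + β * (p + δ) + γ = 0 := hu2 ⟨by linarith, by linarith⟩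
  have h2 : α * (p + 2 * δ) ^ 2 + β * (p + 2 * δ) + γ = 0 := hu2 ⟨by linarith, by linarith⟩
  have h3 : α * (p + 3 * δ) ^ 2 + β * (p + 3 * δ) + γ = 0 := hu2 ⟨by linarith, by linarith⟩
  have h4 : α * (2 * δ ^ 2) = 0 := by linear_combination h1 - 2 * h2 + h3
  have hα : α = 0 := by
    rcases mul_eq_zero.1 h4 with h | h
    · exact h
    · exact absurd h (by positivity)
  subst hα
  have h5 : β * δ = 0 := by linear_combination h2 - h1
  have hβ : β = 0 := by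
    rcases mul_eq_zero.1 h5 with h | h
    · exact h
    · exact absurd h hδ0.ne'
  subst hβ
  refine ⟨rfl, rfl, by linarith⟩

/-- two matrices which give the same germ -/
theorem gm_rel {M N : GL (Fin 2) ℝ} {F : ℝ → ℝ} {p : ℝ} (hM : GM M F p) (hN : GM N F p) :
    M 0 0 * N 1 0 - N 0 0 * M 1 0 = 0 ∧
    M 0 0 * N 1 1 + M 0 1 * N 1 0 - N 0 0 * M 1 1 - N 0 1 * M 1 0 = 0 ∧
    M 0 1 * N 1 1 - N 0 1 * M 1 1 = 0 := by
  have hcont : ∀ X : GL (Fin 2) ℝ, Continuous (fun y : ℝ => X 1 0 * y + X 1 1) :=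
    fun X => by fun_prop
  have h1 : ∀ᶠ y in 𝓝[≥] p, M 1 0 * y + M 1 1 ≠ 0 :=
    ((hcont M).continuousAt.eventually_ne hM.1).filter_mono nhdsWithin_le_nhds
  have h2 : ∀ᶠ y in 𝓝[≥] p, N 1 0 * y + N 1 1 ≠ 0 :=
    ((hcont N).continuousAt.eventually_ne hN.1).filter_mono nhdsWithin_le_nhds
  apply quad_zero (p := p)
  filter_upwards [hM.2, hN.2, h1, h2] with y e1 e2 d1 d2
  rw [e1, div_eq_div_iff d1 d2] at e2
  linear_combination e2

/-- the lift `F` has right germs with matrices over `A` -/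
def Good (A : Subalgebra ℤ ℝ) (F : ℝ ≃o ℝ) : Prop :=
  ∀ x, ∃ M : GL (Fin 2) A, GM (Matrix.GeneralLinearGroup.map (algebraMap A ℝ) M) F x

theorem Good.one (A : Subalgebra ℤ ℝ) : Good A 1 := by
  intro x
  refine ⟨1, ?_⟩
  rw [map_one]
  exact gm_one x

theorem Good.mul {A : Subalgebra ℤ ℝ} {F G : ℝ ≃o ℝ} (hF : Good A F) (hG : Good A G) :
    Good A (F * G) := by
  intro x
  obtain ⟨M, hM⟩ := hF (G x)
  obtain ⟨N, hN⟩ := hG x
  refine ⟨M * N, ?_⟩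
  rw [map_mul]
  exact gm_mul hM hN

/-- a matrix over `A` from real entries -/
theorem exists_gl {A : Subalgebra ℤ ℝ} {a b c d : ℝ} (ha : a ∈ A) (hb : b ∈ A) (hc : c ∈ A)
    (hd : d ∈ A) (hdet : a * d - b * c ≠ 0) (hi : (a * d - b * c)⁻¹ ∈ A) :
    ∃ M : GL (Fin 2) A, (Matrix.GeneralLinearGroup.map (algebraMap A ℝ) M) 0 0 = a ∧
      (Matrix.GeneralLinearGroup.map (algebraMap A ℝ) M) 0 1 = b ∧
      (Matrix.GeneralLinearGroup.map (algebraMap A ℝ) M) 1 0 = c ∧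
      (Matrix.GeneralLinearGroup.map (algebraMap A ℝ) M) 1 1 = d := by
  let M0 : Matrix (Fin 2) (Fin 2) A := !![⟨a, ha⟩, ⟨b, hb⟩; ⟨c, hc⟩, ⟨d, hd⟩]
  have hu : IsUnit M0.det := by
    refine IsUnit.of_mul_eq_one ⟨_, hi⟩ ?_
    apply Subtype.ext
    rw [Matrix.det_fin_two]
    show (a * d - b * c) * (a * d - b * c)⁻¹ = 1
    exact mul_inv_cancel₀ hdet
  exact ⟨Matrix.GeneralLinearGroup.mk'' M0 hu, rfl, rfl, rfl, rfl⟩

theorem good_tr (A : Subalgebra ℤ ℝ) (n : ℤ) : Good A (CA.tr n) := by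
  intro x
  obtain ⟨M, h1, h2, h3, h4⟩ := exists_gl (A := A) (a := 1) (b := n) (c := 0) (d := 1)
    A.one_mem (intCast_mem A n) A.zero_mem A.one_mem (by simp) (by simp)
  refine ⟨M, ?_, ?_⟩
  · rw [h3, h4]; simp
  · filter_upwards with y
    rw [h1, h2, h3, h4]
    simp

/-- finitely many matrices are enough on `S` -/
def Fi (F : ℝ ≃o ℝ) (S : Set ℝ) : Prop :=
  ∃ 𝓜 : Set (Fin 4 → ℝ), 𝓜.Finite ∧ ∀ x ∈ S, ∃ m ∈ 𝓜, 0 < m 0 * m 3 - m 1 * m 2 ∧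
    m 2 * x + m 3 ≠ 0 ∧ ∀ᶠ y in 𝓝[≥] x, F y = (m 0 * y + m 1) / (m 2 * y + m 3)

theorem fi_Icc {F : ℝ ≃o ℝ} (h : ∀ x, PrR F x ∧ PrL F x) (u v : ℝ) : Fi F (Icc u v) := by
  refine (isCompact_Icc : IsCompact (Icc u v)).induction_on (p := Fi F) ?_ ?_ ?_ ?_
  · exact ⟨∅, Set.finite_empty, fun x hx => absurd hx (notMem_empty x)⟩
  · rintro s t hst ⟨𝓜, h1, h2⟩
    exact ⟨𝓜, h1, fun x hx => h2 x (hst hx)⟩
  · rintro s t ⟨𝓜, h1, h2⟩ ⟨𝓜', h1', h2'⟩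
    refine ⟨𝓜 ∪ 𝓜', h1.union h1', ?_⟩
    rintro x (hx | hx)
    · obtain ⟨m, hm, h3⟩ := h2 x hx
      exact ⟨m, Or.inl hm, h3⟩
    · obtain ⟨m, hm, h3⟩ := h2' x hx
      exact ⟨m, Or.inr hm, h3⟩
  · intro x _
    obtain ⟨⟨a, b, c, d, hdet, hx, he⟩, a', b', c', d', hdet', hx', he'⟩ := h x
    obtain ⟨r, hr, hr2⟩ := mem_nhdsGE_iff_exists_Ico_subset.1 he
    obtain ⟨l, hl, hl2⟩ := mem_nhdsLE_iff_exists_Ioc_subset.1 he'
    have hc1 : Continuous (fun y : ℝ => c * y + d) := by fun_prop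
    have hc2 : Continuous (fun y : ℝ => c' * y + d') := by fun_prop
    have hn1 : ∀ᶠ y in 𝓝[≥] x, c * y + d ≠ 0 :=
      (hc1.continuousAt.eventually_ne hx).filter_mono nhdsWithin_le_nhds
    have hn2 : ∀ᶠ y in 𝓝[<] x, c' * y + d' ≠ 0 :=
      (hc2.continuousAt.eventually_ne hx').filter_mono nhdsWithin_le_nhds
    have hR : ∀ᶠ y in 𝓝[≥] x, y ∈ Ico x r := Ico_mem_nhdsGE hr
    have hL : ∀ᶠ y in 𝓝[<] x, y ∈ Ioo l x := Ioo_mem_nhdsLT hl
    refine ⟨{y | (y ∈ Ico x r ∧ c * y + d ≠ 0) ∨ (y ∈ Ioo l x ∧ c' * y + d' ≠ 0)}, ?_,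
      {![a, b, c, d], ![a', b', c', d']}, Set.toFinite _, ?_⟩
    · apply mem_nhdsWithin_of_mem_nhds
      rw [← nhdsLT_sup_nhdsGE, mem_sup]
      refine ⟨?_, ?_⟩
      · filter_upwards [hn2, hL] with y h1 h2
        exact Or.inr ⟨h2, h1⟩
      · filter_upwards [hn1, hR] with y h1 h2
        exact Or.inl ⟨h2, h1⟩
    · rintro y (⟨hy, hyd⟩ | ⟨hy, hyd⟩)
      · refine ⟨_, Or.inl rfl, hdet, hyd, ?_⟩
        have h5 : Ico y r ∈ 𝓝[≥] y := Ico_mem_nhdsGE hy.2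
        filter_upwards [h5] with z hz
        exact hr2 ⟨hy.1.trans hz.1, hz.2⟩
      · refine ⟨_, Or.inr rfl, hdet', hyd, ?_⟩
        have h5 : Ioo l x ∈ 𝓝 y := isOpen_Ioo.mem_nhds hy
        filter_upwards [mem_nhdsWithin_of_mem_nhds h5] with z hz
        exact hl2 ⟨hz.1, hz.2.le⟩

theorem good_of_fi {A : Subalgebra ℤ ℝ} {F : ℝ ≃o ℝ} (hper : ∀ x, F (x + 1) = F x + 1)
    {𝓜 : Set (Fin 4 → ℝ)} (hM : ∀ m ∈ 𝓜, (∀ i, m i ∈ A) ∧ (m 0 * m 3 - m 1 * m 2)⁻¹ ∈ A)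
    (h : ∀ x ∈ Icc (0 : ℝ) 1, ∃ m ∈ 𝓜, 0 < m 0 * m 3 - m 1 * m 2 ∧
    m 2 * x + m 3 ≠ 0 ∧ ∀ᶠ y in 𝓝[≥] x, F y = (m 0 * y + m 1) / (m 2 * y + m 3)) : Good A F := by
  intro x
  obtain ⟨m, hm, h1, h2, h3⟩ := h (x - ⌊x⌋)
    ⟨by linarith [Int.floor_le x], by linarith [Int.lt_floor_add_one x]⟩
  obtain ⟨M, e1, e2, e3, e4⟩ := exists_gl ((hM m hm).1 0) ((hM m hm).1 1) ((hM m hm).1 2)
    ((hM m hm).1 3) h1.ne' (hM m hm).2
  have hG : GM (Matrix.GeneralLinearGroup.map (algebraMap A ℝ) M) F (CA.tr (-⌊x⌋) x) := by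
    have e0 : CA.tr (-⌊x⌋) x = x - ⌊x⌋ := by simp [sub_eq_add_neg]
    rw [e0]
    refine ⟨by rw [e3, e4]; exact h2, ?_⟩
    rw [e1, e2, e3, e4]
    exact h3
  obtain ⟨N, hN⟩ := good_tr A (-⌊x⌋) x
  obtain ⟨P, hP⟩ := good_tr A ⌊x⌋ ((F * CA.tr (-⌊x⌋)) x)
  have h4 := gm_mul hP (gm_mul hG hN)
  refine ⟨P * (M * N), ?_⟩
  rw [map_mul, map_mul]
  have h5 : CA.tr ⌊x⌋ * (F * CA.tr (-⌊x⌋)) = F := by
    ext y
    show F (y + ((-⌊x⌋ : ℤ) : ℝ)) + ⌊x⌋ = F y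
    rw [per_int hper]
    push_cast
    ring
  rw [h5] at h4
  exact h4

variable {K : Type*} [Group K] {φ : K →* Equiv.Perm S1}

theorem exists_ring [Group.FG K] (hP : ∀ k, PPr (φ k)) :
    ∃ T : Set ℝ, T.Finite ∧ ∀ k, ∃ F, IsLift (φ k) F ∧ Good (Algebra.adjoin ℤ T) F := by
  classical
  have hm : Monoid.FG K := inferInstance
  obtain ⟨S, hS⟩ := hm.fg_top
  choose F hF hF2 using hP
  have h1 : ∀ k, Fi (F k) (Icc 0 1) := fun k => fi_Icc (hF2 k) 0 1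
  choose 𝓜 h𝓜f h𝓜 using h1
  let E : (Fin 4 → ℝ) → Set ℝ := fun m => Set.range m ∪ {(m 0 * m 3 - m 1 * m 2)⁻¹}
  have hE : ∀ m, (E m).Finite := fun m => (Set.finite_range m).union (Set.finite_singleton _)
  let T : Set ℝ := ⋃ s ∈ S, ⋃ m ∈ 𝓜 s, E m
  have hT : T.Finite := S.finite_toSet.biUnion fun s _ => (h𝓜f s).biUnion fun m _ => hE m
  refine ⟨T, hT, ?_⟩
  have hgood : ∀ s ∈ S, Good (Algebra.adjoin ℤ T) (F s) := by
    intro s hs
    refine good_of_fi (hF s).1 ?_ (h𝓜 s)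
    intro m hm
    have hsub : E m ⊆ T := fun e he => Set.mem_biUnion hs (Set.mem_biUnion hm he)
    refine ⟨fun i => Algebra.subset_adjoin (hsub (Or.inl ⟨i, rfl⟩)), ?_⟩
    exact Algebra.subset_adjoin (hsub (Or.inr rfl))
  intro k
  have hk : k ∈ Submonoid.closure (S : Set K) := by rw [hS]; trivial
  induction hk using Submonoid.closure_induction with
  | mem s hs => exact ⟨F s, hF s, hgood s hs⟩
  | one => exact ⟨1, by rw [map_one]; exact IsLift.one, Good.one _⟩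
  | mul a b _ _ ha hb =>
    obtain ⟨X, hX, hX2⟩ := ha
    obtain ⟨Y, hY, hY2⟩ := hb
    exact ⟨X * Y, by rw [map_mul]; exact hX.mul hY, hX2.mul hY2⟩

open Pool.Agent.H698R4 in
theorem exists_quot {A : Subalgebra ℤ ℝ} (hfg : A.FG) {t : A} (ht : t ≠ 0) :
    ∃ P : Ideal A, t ∉ P ∧ P ≠ ⊤ ∧ Finite (A ⧸ P) := by
  have hft : Algebra.FiniteType ℤ A := (Subalgebra.fg_iff_finiteType A).mp hfg
  have := jacobson_int
  have hJ : IsJacobsonRing A := isJacobsonRing_of_finiteType (A := ℤ)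
  have hjac : (⊥ : Ideal A).jacobson = ⊥ := hJ.out (Ideal.isRadical_bot)
  have hmax : ∃ P : Ideal A, P.IsMaximal ∧ t ∉ P := by
    by_contra hcon
    push Not at hcon
    have : t ∈ (⊥ : Ideal A).jacobson := by
      rw [Ideal.jacobson, Ideal.mem_sInf]
      rintro P ⟨-, hP⟩
      exact hcon P hP
    rw [hjac, Ideal.mem_bot] at this
    exact ht this
  obtain ⟨P, hP, htP⟩ := hmax
  have hKft : Algebra.FiniteType ℤ (A ⧸ P) :=
    Algebra.FiniteType.of_surjective (Ideal.Quotient.mkₐ ℤ P) (Ideal.Quotient.mkₐ_surjective ℤ P)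
  exact ⟨P, htP, hP.ne_top, finite_field_of_finiteType _
    ((Ideal.Quotient.maximal_ideal_iff_isField_quotient P).mp hP)⟩

theorem free_of_div [Group.FG K] (hP : ∀ k, PPr (φ k))
    (hd : ∀ g : K, ∀ m : ℕ, 1 ≤ m → ∃ h : K, h ^ m = g) (k : K)
    (hne : (Fix (φ k)).Nonempty) : φ k = 1 := by
  have hPA : ∀ k, PAn (φ k) := fun k => (hP k).pan
  obtain ⟨F0, hF0, -⟩ := hP k
  apply eq_one_of_rb_empty hF0 hne
  rw [Set.eq_empty_iff_forall_notMem]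
  rintro _ ⟨p, rfl, hp⟩
  obtain ⟨T, hT, hgood⟩ := exists_ring hP
  set A := Algebra.adjoin ℤ T with hA
  have hgood' : ∀ k : K, φ k (p : S1) = p → ∃ F, IsLift (φ k) F ∧ F p = p ∧ Good A F := by
    intro k hk
    obtain ⟨F, hF, hF2⟩ := hgood k
    obtain ⟨n, hn⟩ := hF.fixing hk
    exact ⟨_, hF.tr n, hn, (good_tr A n).mul hF2⟩
  obtain ⟨F, hF, hFp, hFg⟩ := hgood' k hp.1
  obtain ⟨M, hM⟩ := hFg p
  -- the nonzero element
  obtain ⟨t, ht0, ht⟩ : ∃ t : A, t ≠ 0 ∧ (t = M 0 1 ∨ t = M 1 0 ∨ t = M 0 0 - M 1 1) := by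
    by_contra hcon
    push Not at hcon
    have h1 : M 0 1 = 0 := by
      by_contra h; exact (hcon _ h).1 rfl
    have h2 : M 1 0 = 0 := by
      by_contra h; exact (hcon _ h).2.1 rfl
    have h3 : M 0 0 - M 1 1 = 0 := by
      by_contra h; exact (hcon _ h).2.2 rfl
    apply hp.2
    have h4 : ∀ᶠ y in 𝓝[>] p, F y = ((Matrix.GeneralLinearGroup.map (algebraMap A ℝ) M) 0 0 * y +
        (Matrix.GeneralLinearGroup.map (algebraMap A ℝ) M) 0 1) /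
        ((Matrix.GeneralLinearGroup.map (algebraMap A ℝ) M) 1 0 * y +
        (Matrix.GeneralLinearGroup.map (algebraMap A ℝ) M) 1 1) :=
      hM.2.filter_mono (nhdsWithin_mono _ Ioi_subset_Ici_self)
    have h5 := hM.1
    have e : ∀ i j, (Matrix.GeneralLinearGroup.map (algebraMap A ℝ) M) i j = ((M i j : A) : ℝ) :=
      fun _ _ => rfl
    have h6 : M 0 0 = M 1 1 := sub_eq_zero.1 h3
    rw [e, e, h2] at h5
    have h7 : ((M 1 1 : A) : ℝ) ≠ 0 := by simpa using h5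
    filter_upwards [h4] with y hy
    apply hF.fix_coe
    rw [hy, e, e, e, e, h1, h2, h6]
    simp only [ZeroMemClass.coe_zero, zero_mul, add_zero, zero_add]
    field_simp
  have hfg : A.FG := Subalgebra.fg_def.mpr ⟨T, hT, rfl⟩
  obtain ⟨P, htP, hPt, hPf⟩ := exists_quot hfg ht0
  set N := Nat.card (GL (Fin 2) (A ⧸ P)) with hN
  have hN0 : 0 < N := Nat.card_pos
  have hfin := rb_finite (hPA k)
  set j := Nat.card (Equiv.Perm (RB (Fix (φ k)))) with hj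
  have hj0 : 0 < j := card_perm_pos hfin
  obtain ⟨h, hh⟩ := hd k (j * N) (Nat.mul_pos hj0 hN0)
  obtain ⟨H, hH, -⟩ := hP h
  have hcomm : h * k * h⁻¹ = k := by
    rw [← hh]
    group
  have himg : φ h '' RB (Fix (φ k)) = RB (Fix (φ k)) := by
    have h1 := rb_conj_iff (g := φ k) hH
    rw [← map_mul, ← map_inv, ← map_mul, hcomm] at h1
    exact h1.symm
  have hfix : φ (h ^ j) (p : S1) = p := by
    rw [map_pow]
    exact pow_fix_of_image himg (coe_mem_rb.2 hp)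
  obtain ⟨F', hF', hF'p, hF'g⟩ := hgood' _ hfix
  obtain ⟨M', hM'⟩ := hF'g p
  have hpow : F' ^ N = F := by
    have h1 : IsLift (φ k) (F' ^ N) := by
      have := hF'.pow N
      rwa [← map_pow, ← pow_mul, hh] at this
    exact h1.unique hF (pow_fix hF'p N) hFp
  have hM'N := gm_pow hM' hF'p N
  rw [hpow, ← map_pow] at hM'N
  obtain ⟨r1, r2, r3⟩ := gm_rel hM hM'N
  set Q : GL (Fin 2) A := M' ^ N with hQ
  have e : ∀ (X : GL (Fin 2) A) (i j), (Matrix.GeneralLinearGroup.map (algebraMap A ℝ) X) i j =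
      ((X i j : A) : ℝ) := fun _ _ _ => rfl
  rw [e, e, e, e] at r1 r3
  rw [e, e, e, e, e, e, e, e] at r2
  have s1 : M 0 0 * Q 1 0 - Q 0 0 * M 1 0 = 0 := by
    apply Subtype.ext; push_cast; exact r1
  have s2 : M 0 0 * Q 1 1 + M 0 1 * Q 1 0 - Q 0 0 * M 1 1 - Q 0 1 * M 1 0 = 0 := by
    apply Subtype.ext; push_cast; exact r2
  have s3 : M 0 1 * Q 1 1 - Q 0 1 * M 1 1 = 0 := by
    apply Subtype.ext; push_cast; exact r3
  have hred : ∀ i j, Ideal.Quotient.mk P (Q i j) = (1 : Matrix (Fin 2) (Fin 2) (A ⧸ P)) i j := by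
    intro i j
    have h1 : Matrix.GeneralLinearGroup.map (Ideal.Quotient.mk P) Q = 1 := by
      rw [hQ, map_pow]
      exact pow_card_eq_one'
    have h2 := congrArg (fun X : GL (Fin 2) (A ⧸ P) => X i j) h1
    exact h2
  have q00 := hred 0 0
  have q01 := hred 0 1
  have q10 := hred 1 0
  have q11 := hred 1 1
  simp only [Matrix.one_apply_eq, ne_eq, zero_ne_one, not_false_eq_true, Matrix.one_apply_ne,
    one_ne_zero] at q00 q01 q10 q11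
  have t1 := congrArg (Ideal.Quotient.mk P) s1
  have t2 := congrArg (Ideal.Quotient.mk P) s2
  have t3 := congrArg (Ideal.Quotient.mk P) s3
  simp only [map_sub, map_mul, map_add, map_zero, q00, q01, q10, q11, mul_zero, zero_sub, one_mul,
    mul_one, add_zero, zero_mul, sub_zero, neg_eq_zero] at t1 t2 t3
  apply htP
  rw [← Ideal.Quotient.eq_zero_iff_mem]
  rcases ht with rfl | rfl | rfl
  · exact t3
  · exact t1
  · rw [map_sub]; exact t2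

end Pool.Agent.K6.H58.CA
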