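import Pool.Agent.K6.H58.CA.Conj
import Pool.Agent.K6.H58.CA.Comm

/-!
# Global fixed points
-/

set_option autoImplicit false

namespace Pool.Agent.K6.H58.CA

open Filter Topology Set

variable {K : Type*} [Group K] {φ : K →* Equiv.Perm S1}

/-- the stabilizer of a point -/
def stb (φ : K →* Equiv.Perm S1) (q : S1) : Subgroup K where
  carrier := {k | φ k q = q}
  one_mem' := by simp
  mul_mem' := by
    intro a b ha hb
    show φ (a * b) q = q
    rw [map_mul]
    show φ a (φ b q) = q
    rw [show φ b q = q from hb, show φ a q = q from ha]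
  inv_mem' := by
    intro a ha
    show φ a⁻¹ q = q
    rw [map_inv, Equiv.Perm.inv_eq_iff_eq]
    exact (show φ a q = q from ha).symm

theorem mem_stb {q : S1} {k : K} : k ∈ stb φ q ↔ φ k q = q := Iff.rfl

theorem con_lower {F : ℝ ≃o ℝ} {p c : ℝ} {K0 K1 : ℕ} (h : Con F p K1 c) (hK : K0 < K1) :
    Con F p K0 0 := by
  have h1 : Tendsto (fun y : ℝ => (y - p) ^ (K1 - K0)) (𝓝[>] p) (𝓝 0) := by
    have h2 : Continuous (fun y : ℝ => (y - p) ^ (K1 - K0)) := by fun_prop
    have h3 := (h2.tendsto p).mono_left (nhdsWithin_le_nhds (s := Ioi p))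
    rwa [sub_self, zero_pow (by omega)] at h3
  have h2 := Tendsto.mul (show Tendsto _ _ _ from h) h1
  rw [mul_zero] at h2
  refine h2.congr' ?_
  filter_upwards [self_mem_nhdsWithin] with y hy
  have h4 : 0 < y - p := sub_pos.2 hy
  have h5 : (y - p) ^ K1 = (y - p) ^ K0 * (y - p) ^ (K1 - K0) := by
    rw [← pow_add]; congr 1; omega
  rw [h5]
  field_simp

theorem right_trivial [Group.FG K] (hP : ∀ k, PAn (φ k))
    (hno : ∀ H : Subgroup K, H.FiniteIndex → H = ⊤) {p : ℝ} (hfix : ∀ k, φ k (p : S1) = p)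
    (k : K) : ∀ᶠ y in 𝓝[>] p, φ k ((y : ℝ) : S1) = y := by
  classical
  choose L hL hLp hLa using fun k => (hP k).fixing (hfix k)
  have L_mul : ∀ a b, L (a * b) = L a * L b := by
    intro a b
    have h1 : IsLift (φ (a * b)) (L a * L b) := by rw [map_mul]; exact (hL a).mul (hL b)
    refine (hL (a * b)).unique h1 (hLp _) ?_
    show L a (L b p) = p
    rw [hLp, hLp]
  choose μ hμ0 hμ using fun k => ((hLa k) p).1.mu
  have μ_mul : ∀ a b, μ (a * b) = μ a * μ b := by
    intro a b
    have h1 := (hμ a).mul (hμ b) (hLp b)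
    rw [← L_mul] at h1
    exact (hμ _).unique h1
  have hμ1 : ∀ k, μ k = 1 := by
    intro k
    let f : K →* Multiplicative ℝ := MonoidHom.mk' (fun k => Multiplicative.ofAdd (Real.log (μ k)))
      (fun a b => by
        show Real.log (μ (a * b)) = Real.log (μ a) + Real.log (μ b)
        rw [μ_mul, Real.log_mul (hμ0 a).ne' (hμ0 b).ne'])
    have h1 : f k = 1 := comm_image_trivial hno f (fun a b => mul_comm _ _) k
    have h2 : Real.log (μ k) = 0 := h1
    rcases Real.log_eq_zero.1 h2 with h | h | h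
    · exact absurd h (hμ0 k).ne'
    · exact h
    · have := hμ0 k
      linarith
  have hM : ∀ k, Mu (L k) p 1 := by
    intro k
    have := hμ k
    rwa [hμ1] at this
  by_contra hcon
  have hcon' : ¬ ∀ᶠ y in 𝓝[>] p, L k y = y := by
    intro h
    apply hcon
    filter_upwards [h] with y hy
    exact (hL k).fix_coe hy
  have hex : ∃ K0 : ℕ, ∃ (k : K) (c : ℝ), c ≠ 0 ∧ Con (L k) p K0 c := by
    obtain ⟨K0, c, hc, h⟩ := exists_con ((hLa k) p).1 hcon'
    exact ⟨K0, k, c, hc, h⟩
  set K0 := Nat.find hex with hK0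
  obtain ⟨k1, c1, hc1, hk1⟩ := Nat.find_spec hex
  have hall : ∀ k, ∃ c, Con (L k) p K0 c := by
    intro k
    by_cases ht : ∀ᶠ y in 𝓝[>] p, L k y = y
    · refine ⟨0, Tendsto.congr' ?_ tendsto_const_nhds⟩
      filter_upwards [ht] with y hy
      rw [hy, sub_self, zero_div]
    · obtain ⟨K1, c, hc, h⟩ := exists_con ((hLa k) p).1 ht
      have h1 : K0 ≤ K1 := Nat.find_min' hex ⟨k, c, hc, h⟩
      rcases h1.lt_or_eq with h2 | h2
      · exact ⟨0, con_lower h h2⟩
      · exact ⟨c, by rw [h2]; exact h⟩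
  choose c hc using hall
  let f : K →* Multiplicative ℝ := MonoidHom.mk' (fun k => Multiplicative.ofAdd (c k))
    (fun a b => by
      show c (a * b) = c a + c b
      have h1 := (hc a).mul (hc b) (hLp b) (hM b)
      rw [← L_mul] at h1
      exact (hc _).unique h1)
  have h1 : f k1 = 1 := comm_image_trivial hno f (fun a b => mul_comm _ _) k1
  have h2 : c k1 = 0 := h1
  have h3 := (hc k1).unique hk1
  exact hc1 (by rw [← h3, h2])

/-- a finitely generated group without proper subgroups of finite index which has a global fixed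
point acts trivially -/
theorem trivial_of_global [Group.FG K] (hP : ∀ k, PAn (φ k))
    (hno : ∀ H : Subgroup K, H.FiniteIndex → H = ⊤) {q : S1} (hfix : ∀ k, φ k q = q)
    (k : K) : φ k = 1 := by
  classical
  obtain ⟨p, -, -, rfl⟩ := exists_rep q 0
  choose L hL hLp hLa using fun k => (hP k).fixing (hfix k)
  obtain ⟨S, hS⟩ := Group.FG.out (G := K)
  have h1 : Icc p (p + 1) ⊆ {x | ∀ k, L k x = x} := by
    apply IsClosed.Icc_subset_of_forall_mem_nhdsWithin
    · have : {x | ∀ k, L k x = x} = ⋂ k, {x | L k x = x} := by ext; simp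
      rw [this]
      exact (isClosed_iInter fun k => isClosed_eq (L k).continuous continuous_id).inter
        isClosed_Icc
    · exact hLp
    · rintro x ⟨hx, -⟩
      have hx' : ∀ k, φ k (x : S1) = x := fun k => (hL k).fix_coe (hx k)
      have h2 := (Finset.eventually_all S).2 fun s _ => right_trivial hP hno hx' s
      filter_upwards [h2] with y hy k
      refine (hL k).fix_of_fix (hLp k) ?_
      have h3 : (⊤ : Subgroup K) ≤ stb φ (y : S1) := by
        rw [← hS, Subgroup.closure_le]
        intro s hs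
        exact hy s hs
      exact h3 (Subgroup.mem_top k)
  ext q'
  obtain ⟨x, hx1, hx2, rfl⟩ := exists_rep q' p
  exact (hL k).fix_coe (h1 ⟨hx1, hx2.le⟩ k)

end Pool.Agent.K6.H58.CA
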