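import Pool.Agent.K6.H58.CA.Stab
import Pool.Agent.K6.H58.CA.Ping
import Pool.Agent.K6.H60.RN.T3d

/-!
# Groups all of whose proper subgroups are cyclic
-/

set_option autoImplicit false

namespace Pool.Agent.K6.H58.CA

open Filter Topology Set
open scoped Pointwise

variable {K : Type} [Group K] {φ : K →* Equiv.Perm S1}

theorem fix_zpow {g : Equiv.Perm S1} {F : ℝ ≃o ℝ} (hF : IsLift g F) (hne : (Fix g).Nonempty)
    {n : ℤ} (hn : n ≠ 0) : Fix (g ^ n) = Fix g := by
  have h0 : 0 < n.natAbs := Int.natAbs_pos.2 hn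
  rcases Int.natAbs_eq n with e | e
  · rw [e, zpow_natCast]
    exact fix_pow hF hne h0
  · rw [e, zpow_neg, zpow_natCast, fix_inv]
    exact fix_pow hF hne h0

/-- B. H. Neumann's lemma -/
theorem exists_disjoint (hinf : ∀ q : S1, ¬ (stb φ q).FiniteIndex) {R : Set S1} (hR : R.Finite) :
    ∃ h : K, Disjoint (φ h '' R) R := by
  classical
  by_contra hcon
  push Not at hcon
  have h1 : ∀ h : K, ∃ x ∈ R, φ h x ∈ R := by
    intro h
    obtain ⟨y, ⟨x, hx, rfl⟩, hy⟩ := Set.not_disjoint_iff.1 (hcon h)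
    exact ⟨x, hx, hy⟩
  let I : Set (S1 × S1) := {z | z.1 ∈ R ∧ z.2 ∈ R ∧ ∃ h : K, φ h z.1 = z.2}
  have hI : I.Finite := (hR.prod hR).subset fun z hz => ⟨hz.1, hz.2.1⟩
  let c : S1 × S1 → K := fun z => if h : ∃ h : K, φ h z.1 = z.2 then h.choose else 1
  have hc : ∀ z ∈ I, φ (c z) z.1 = z.2 := by
    intro z hz
    show φ (if h : ∃ h : K, φ h z.1 = z.2 then h.choose else 1) z.1 = z.2
    rw [dif_pos hz.2.2]
    exact hz.2.2.choose_spec
  have hcov : ⋃ i ∈ hI.toFinset, (c i) • ((stb φ i.1 : Subgroup K) : Set K) = Set.univ := by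
    rw [Set.eq_univ_iff_forall]
    intro h
    obtain ⟨x, hx, hy⟩ := h1 h
    have hz : (x, φ h x) ∈ I := ⟨hx, hy, h, rfl⟩
    refine Set.mem_biUnion (show (x, φ h x) ∈ (hI.toFinset : Set (S1 × S1)) by
      simpa using hz) ?_
    rw [mem_leftCoset_iff]
    show φ ((c (x, φ h x))⁻¹ * h) x = x
    have h2 := hc _ hz
    simp only at h2
    rw [map_mul, map_inv]
    show (φ (c (x, φ h x)))⁻¹ (φ h x) = x
    rw [Equiv.Perm.inv_eq_iff_eq]
    exact h2.symm
  obtain ⟨i, -, hi⟩ := Subgroup.exists_finiteIndex_of_leftCoset_cover hcov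
  exact hinf _ hi

theorem type3_trivial [Group.FG K] (hP : ∀ k, PAn (φ k))
    (hno : ∀ H : Subgroup K, H.FiniteIndex → H = ⊤)
    (hcyc : ∀ H : Subgroup K, H ≠ ⊤ → IsCyclic H) (k0 : K) : φ k0 = 1 := by
  by_contra hk0
  have hglob : ∀ q : S1, ¬ ∀ k, φ k q = q := fun q h => hk0 (trivial_of_global hP hno h k0)
  have hor : ∀ k, ∃ F, IsLift (φ k) F := fun k => (hP k).imp fun _ h => h.1
  by_cases hfree : ∀ k, (Fix (φ k)).Nonempty → φ k = 1
  · exact hk0 (comm_image_trivial hno φ (commute_of_free hor hfree) k0)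
  push Not at hfree
  obtain ⟨k, hkne, hk1⟩ := hfree
  have hRne : (RB (Fix (φ k))).Nonempty := by
    rw [Set.nonempty_iff_ne_empty]
    intro h
    obtain ⟨F, hF⟩ := hor k
    exact hk1 (eq_one_of_rb_empty hF hkne h)
  have hinf : ∀ q : S1, ¬ (stb φ q).FiniteIndex := by
    intro q hq
    have h1 := hno _ hq
    apply hglob q
    intro k
    have : k ∈ stb φ q := by rw [h1]; trivial
    exact this
  obtain ⟨h, hh⟩ := exists_disjoint hinf (rb_finite (hP k))
  obtain ⟨H, hH⟩ := hor h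
  obtain ⟨F, hF⟩ := hor k
  set k' := h * k * h⁻¹ with hk'
  have hφk' : φ k' = φ h * φ k * (φ h)⁻¹ := by rw [hk', map_mul, map_mul, map_inv]
  have hRB' : RB (Fix (φ k')) = φ h '' RB (Fix (φ k)) := by rw [hφk']; exact rb_conj_iff hH
  have hFix' : Fix (φ k') = φ h '' Fix (φ k) := by rw [hφk']; exact fix_conj _ _
  have hk'ne : (Fix (φ k')).Nonempty := by rw [hFix']; exact hkne.image _
  have hk'1 : φ k' ≠ 1 := by
    intro e
    apply hk1
    rw [hφk', mul_inv_eq_one] at e
    simpa using e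
  obtain ⟨F', hF'⟩ := hor k'
  have hdisj : Disjoint (Fix (φ k)) (Fix (φ k')) := by
    rw [Set.disjoint_left]
    intro q hq hq'
    set C : Subgroup K := Subgroup.closure {k, k'} with hC
    have hkC : k ∈ C := Subgroup.subset_closure (by simp)
    have hk'C : k' ∈ C := Subgroup.subset_closure (by simp)
    by_cases hCt : C = ⊤
    · apply hglob q
      intro x
      have h1 : C ≤ stb φ q := by
        rw [hC, Subgroup.closure_le]
        rintro y (rfl | rfl)
        · exact hq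
        · exact hq'
      have h2 : x ∈ C := by rw [hCt]; trivial
      exact h1 h2
    · obtain ⟨⟨z, hz⟩, hgen⟩ := hcyc C hCt
      obtain ⟨i, hi⟩ := hgen ⟨k, hkC⟩
      obtain ⟨l, hl⟩ := hgen ⟨k', hk'C⟩
      have hi' : z ^ i = k := by simpa using congrArg Subtype.val hi
      have hl' : z ^ l = k' := by simpa using congrArg Subtype.val hl
      have hi0 : i ≠ 0 := by
        rintro rfl
        apply hk1
        rw [← hi', zpow_zero, map_one]
      have hl0 : l ≠ 0 := by
        rintro rfl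
        apply hk'1
        rw [← hl', zpow_zero, map_one]
      have e1 : Fix (φ k) = Fix (φ k') := by
        rw [← fix_zpow hF hkne hl0, ← fix_zpow hF' hk'ne hi0, ← map_zpow, ← map_zpow, ← hi',
          ← hl', ← zpow_mul, ← zpow_mul, mul_comm]
      rw [← e1] at hRB'
      rw [← hRB'] at hh
      obtain ⟨r, hr⟩ := hRne
      exact Set.disjoint_left.1 hh hr hr
  obtain ⟨N, hN, hinj⟩ := ping_pong hF hF' hkne hk'ne hdisj
  refine Pool.Agent.K6.H60.RN.free_false hno hcyc (a := ![k ^ N, k' ^ N]) ?_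
  have h1 : (FreeGroup.lift ![φ k ^ N, φ k' ^ N]) = φ.comp (FreeGroup.lift ![k ^ N, k' ^ N]) := by
    ext i
    fin_cases i <;> simp
  rw [h1, MonoidHom.coe_comp] at hinj
  exact hinj.of_comp

end Pool.Agent.K6.H58.CA
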