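import Pool.Agent.K6.H58.CA.Nest
import Pool.Agent.K6.H58.CA.Stab
import Pool.Agent.Helper29.Holder

/-!
# Finitely generated groups without free semigroups: the image is virtually abelian
-/

set_option autoImplicit false

namespace Pool.Agent.K6.H58.CA

open Filter Topology Set

theorem cone_lemma {N : Type*} [Group N] (L : N →* (ℝ ≃o ℝ)) {S : Set ℝ} (hne : S.Nonempty)
    (hinv : ∀ u, ∀ x ∈ S, L u x ∈ S)
    (htri : ∀ u, (∀ x ∈ S, L u x = x) ∨ (∀ x ∈ S, x < L u x) ∨ (∀ x ∈ S, L u x < x))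
    (harch : ∀ u, (∀ x ∈ S, x < L u x) → ∀ v, ∃ n : ℕ, ∃ x ∈ S, L v x ≤ ((L u) ^ n) x)
    (u v : N) : ∀ x ∈ S, L (u * v * u⁻¹ * v⁻¹) x = x := by
  have hcancel : ∀ (g : N) (x : ℝ), L g (L g⁻¹ x) = x := by
    intro g x
    rw [map_inv]
    exact (L g).apply_symm_apply x
  have hcancel' : ∀ (g : N) (x : ℝ), L g⁻¹ (L g x) = x := by
    intro g x
    rw [map_inv]
    exact (L g).symm_apply_apply x
  set C : Set N := {u | ∀ x ∈ S, x ≤ L u x} with hC
  obtain ⟨f, hf, hfC⟩ := Pool.Agent.Helper29.holder_cone C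
    (by
      intro x hx y hy s hs
      rw [map_mul]
      exact (hy s hs).trans (hx _ (hinv y s hs)))
    (by
      intro x
      rcases htri x with h | h | h
      · exact Or.inl fun s hs => (h s hs).ge
      · exact Or.inl fun s hs => (h s hs).le
      · right
        intro s hs
        have h1 := h _ (hinv x⁻¹ s hs)
        rw [hcancel] at h1
        exact h1.le)
    (by
      intro x hx g s hs
      rw [map_mul, map_mul]
      show s ≤ L g (L x (L g⁻¹ s))
      have h1 := (L g).monotone (hx _ (hinv g⁻¹ s hs))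
      rwa [hcancel] at h1)
    (by
      intro x hx hx' y
      have hup : ∀ s ∈ S, s < L x s := by
        rcases htri x with h | h | h
        · exfalso
          apply hx'
          intro s hs
          have h1 := h _ (hinv x⁻¹ s hs)
          rw [hcancel] at h1
          exact h1.le
        · exact h
        · obtain ⟨s, hs⟩ := hne
          exact absurd (hx s hs) (not_le.2 (h s hs))
      obtain ⟨n, s, hs, h1⟩ := harch x hup y
      refine ⟨n, ?_⟩
      have h2 : L (x ^ n * y⁻¹) (L y s) = ((L x) ^ n) s := by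
        rw [map_mul, map_pow]
        show ((L x) ^ n) (L y⁻¹ (L y s)) = _
        rw [hcancel']
      rcases htri (x ^ n * y⁻¹) with h | h | h
      · exact fun s hs => (h s hs).ge
      · exact fun s hs => (h s hs).le
      · have h3 := h _ (hinv y s hs)
        rw [h2] at h3
        linarith)
  have hf1 : f 1 = 0 := by
    have := hf 1 1
    rw [mul_one] at this
    linarith
  have hfi : ∀ x, f x⁻¹ = - f x := by
    intro x
    have := hf x x⁻¹
    rw [mul_inv_cancel, hf1] at this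
    linarith
  have hfc : f (u * v * u⁻¹ * v⁻¹) = 0 := by
    rw [hf, hf, hf, hfi, hfi]
    ring
  have h1 : u * v * u⁻¹ * v⁻¹ ∈ C := (hfC _).1 hfc.ge
  have h2 : (u * v * u⁻¹ * v⁻¹)⁻¹ ∈ C := (hfC _).1 (by rw [hfi, hfc, neg_zero])
  intro s hs
  refine le_antisymm ?_ (h1 s hs)
  have h3 := h2 _ (hinv (u * v * u⁻¹ * v⁻¹) s hs)
  rwa [hcancel'] at h3

variable {K : Type*} [Group K] {φ : K →* Equiv.Perm S1}

theorem fix_end (hN : NFS K) (hP : ∀ k, PAn (φ k)) {k0 u : K} {F H : ℝ ≃o ℝ}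
    (hF : IsLift (φ k0) F) {a b : ℝ} (hC : Comp F a b) (hH : IsLift (φ u) H) {y : ℝ}
    (hy : H y = y) : H a = a ∧ H b = b := by
  constructor
  · by_contra h
    obtain ⟨α, β, hC', h1, h2⟩ := exists_comp hH.1 hy h
    have := (comp_eq hN hP hH hF hC' hC (h1.trans hC.lt) h2).1
    linarith
  · by_contra h
    obtain ⟨α, β, hC', h1, h2⟩ := exists_comp hH.1 hy h
    have := (comp_eq hN hP hH hF hC' hC h1 (hC.lt.trans h2)).2
    linarith

theorem comp_conj {F H : ℝ ≃o ℝ} {a b : ℝ} (hC : Comp F a b) :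
    Comp (H * F * H⁻¹) (H a) (H b) := by
  refine ⟨H.strictMono hC.lt, ?_, ?_, ?_⟩
  · show H (F (H.symm (H a))) = H a
    rw [H.symm_apply_apply, hC.fa]
  · show H (F (H.symm (H b))) = H b
    rw [H.symm_apply_apply, hC.fb]
  · intro x hx e
    have e' : H (F (H.symm x)) = x := e
    refine hC.ne (H.symm x) ⟨?_, ?_⟩ ?_
    · rw [← H.lt_iff_lt, H.apply_symm_apply]; exact hx.1
    · rw [← H.lt_iff_lt, H.apply_symm_apply]; exact hx.2
    · rw [← H.injective.eq_iff, e', H.apply_symm_apply]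

theorem comp_mem_rb {g : Equiv.Perm S1} {F : ℝ ≃o ℝ} (hF : IsLift g F) {a b : ℝ}
    (hC : Comp F a b) : (a : S1) ∈ RB (Fix g) := by
  rw [coe_mem_rb]
  refine ⟨hF.fix_coe hC.fa, fun h => ?_⟩
  have h1 : ∀ᶠ y in 𝓝[>] a, y ∈ Ioo a b := Ioo_mem_nhdsGT hC.lt
  obtain ⟨y, hy1, hy2⟩ := (h.and h1).exists
  exact hC.ne y hy2 (hF.fix_of_fix hC.fa hy1)

theorem tors (hN : NFS K) (hP : ∀ k, PAn (φ k)) {k0 : K} {F : ℝ ≃o ℝ}
    (hF : IsLift (φ k0) F) {a b : ℝ} (hC : Comp F a b) (t : K) :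
    ∃ n : ℕ, 0 < n ∧ φ (t ^ n) (a : S1) = a := by
  by_contra hcon
  push Not at hcon
  have hnf : ∀ n : ℕ, 0 < n → ∀ q, φ (t ^ n) q ≠ q := by
    intro n hn q hq
    obtain ⟨x, -, -, rfl⟩ := exists_rep q 0
    obtain ⟨H, hH, hHx, -⟩ := (hP (t ^ n)).fixing hq
    exact hcon n hn (hH.fix_coe (fix_end hN hP hF hC hH hHx).1)
  have hR := rb_finite (hP k0)
  set R := RB (Fix (φ k0)) with hRdef
  set B : Set ℕ := {m | 0 < m ∧ ∃ r ∈ R, φ (t ^ m) r ∈ R} with hB
  have hBf : B.Finite := by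
    choose! r hr1 hr2 using (fun m (hm : m ∈ B) => hm.2)
    refine Set.Finite.of_finite_image (f := fun m => (r m, φ (t ^ m) (r m)))
      ((hR.prod hR).subset ?_) ?_
    · rintro _ ⟨m, hm, rfl⟩
      exact ⟨hr1 m hm, hr2 m hm⟩
    · have hlt : ∀ m ∈ B, ∀ m' ∈ B, m < m' →
          (r m, φ (t ^ m) (r m)) ≠ (r m', φ (t ^ m') (r m')) := by
        intro m hm m' hm' hlt he
        rw [Prod.mk.injEq] at he
        obtain ⟨e1, e2⟩ := he
        obtain ⟨d, rfl⟩ := Nat.exists_eq_add_of_lt hlt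
        rw [← e1, add_assoc, pow_add, map_mul] at e2
        have e3 : r m = φ (t ^ (d + 1)) (r m) := (φ (t ^ m)).injective e2
        exact hnf (d + 1) (Nat.succ_pos d) _ e3.symm
      intro m hm m' hm' he
      rcases lt_trichotomy m m' with h | h | h
      · exact absurd he (hlt m hm m' hm' h)
      · exact h
      · exact absurd he.symm (hlt m' hm' m hm h)
  obtain ⟨M, hM⟩ := hBf.bddAbove
  set C : Set S1 := {q | φ k0 q ≠ q} with hCdef
  have key : ∀ m : ℕ, M < m → ∀ q ∈ C, φ (t ^ m) q ∉ C := by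
    intro m hm q hq hq2
    obtain ⟨x, -, -, rfl⟩ := exists_rep q 0
    have hx : F x ≠ x := fun e => hq (hF.fix_coe e)
    obtain ⟨α, β, hC1, h1, h2⟩ := exists_comp hF.1 hC.fa hx
    obtain ⟨H, hH, -⟩ := hP (t ^ m)
    have hy : F (H x) ≠ H x := by
      intro e
      apply hq2
      rw [hH.2]
      exact hF.fix_coe e
    obtain ⟨α', β', hC2, h3, h4⟩ := exists_comp hF.1 hC.fa hy
    have hFc : IsLift (φ (t ^ m * k0 * (t ^ m)⁻¹)) (H * F * H⁻¹) := by
      rw [map_mul, map_mul, map_inv]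
      exact (hH.mul hF).mul hH.inv
    have hHα : H α < H x := H.strictMono h1
    have hHβ : H x < H β := H.strictMono h2
    have e := (comp_eq hN hP hFc hF (comp_conj hC1) hC2 (hHα.trans h4) (h3.trans hHβ)).1
    have hmB : m ∈ B := by
      refine ⟨by omega, (α : S1), comp_mem_rb hF hC1, ?_⟩
      rw [hH.2, e]
      exact comp_mem_rb hF hC2
    exact absurd (hM hmB) (not_le.2 hm)
  have hpow : ∀ j : ℕ, φ (t ^ (M + 1)) ^ j = φ (t ^ ((M + 1) * j)) := by
    intro j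
    rw [← map_pow, ← pow_mul]
  have hgt : ∀ j : ℕ, 1 ≤ j → M < (M + 1) * j := by
    intro j hj
    have : (M + 1) * 1 ≤ (M + 1) * j := Nat.mul_le_mul_left _ hj
    omega
  obtain ⟨l, l', hne, hl⟩ := hN (t ^ (M + 1)) (t ^ (M + 1) * k0)
  apply hne
  refine semi_wreath (φ := φ) (t ^ (M + 1)) k0 (C := C) ?_ ?_ ?_ ?_ l l' hl
  · intro c hc e
    exact hc ((φ k0).injective e)
  · intro j hj c hc
    rw [hpow]
    by_contra h
    exact key _ (hgt j hj) c hc h
  · intro j hj c hc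
    rw [hpow]
    exact key _ (hgt j hj) c hc
  · have hx : (a + b) / 2 ∈ Ioo a b := ⟨by linarith [hC.lt], by linarith [hC.lt]⟩
    have h1 : φ k0 (((a + b) / 2 : ℝ) : S1) ≠ (((a + b) / 2 : ℝ) : S1) :=
      fun h => hC.ne _ hx (hF.fix_of_fix hC.fa h)
    exact ⟨_, h1, h1⟩

/-- the group of all lifts -/
def lifts (φ : K →* Equiv.Perm S1) : Subgroup (ℝ ≃o ℝ) where
  carrier := {F | ∃ k, IsLift (φ k) F}
  one_mem' := ⟨1, by rw [map_one]; exact IsLift.one⟩
  mul_mem' := by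
    rintro F G ⟨k, hF⟩ ⟨l, hG⟩
    exact ⟨k * l, by rw [map_mul]; exact hF.mul hG⟩
  inv_mem' := by
    rintro F ⟨k, hF⟩
    exact ⟨k⁻¹, by rw [map_inv]; exact hF.inv⟩

theorem unbounded {H : ℝ ≃o ℝ} (hup : ∀ x, x < H x) (x M : ℝ) : ∃ n : ℕ, M ≤ (H ^ n) x := by
  by_contra hcon
  push Not at hcon
  have hmono : Monotone (fun n : ℕ => (H ^ n) x) := by
    apply monotone_nat_of_le_succ
    intro n
    show (H ^ n) x ≤ (H ^ (n + 1)) x
    rw [pow_succ']
    exact (hup _).le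
  have hbdd : BddAbove (range (fun n : ℕ => (H ^ n) x)) := by
    refine ⟨M, ?_⟩
    rintro _ ⟨n, rfl⟩
    exact (hcon n).le
  have h1 := tendsto_atTop_ciSup hmono hbdd
  have h2 : Tendsto (fun n : ℕ => (H ^ (n + 1)) x) atTop (𝓝 (⨆ n : ℕ, (H ^ n) x)) :=
    (tendsto_add_atTop_iff_nat 1).2 h1
  have h3 : Tendsto (fun n : ℕ => (H ^ (n + 1)) x) atTop (𝓝 (H (⨆ n : ℕ, (H ^ n) x))) := by
    have := (H.continuous.tendsto _).comp h1
    refine this.congr (fun n => ?_)
    rw [pow_succ']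
    rfl
  have h4 := tendsto_nhds_unique h3 h2
  exact (hup _).ne' h4

theorem comm_fix (hN : NFS K) (hP : ∀ k, PAn (φ k)) {k0 : K} {F : ℝ ≃o ℝ}
    (hF : IsLift (φ k0) F) {a b : ℝ} (hC : Comp F a b) (u v : K) :
    φ (u * v * u⁻¹ * v⁻¹) (a : S1) = a := by
  set S : Set ℝ := {x | ∀ H ∈ lifts φ, (∃ y, H y = y) → H x = x} with hS
  have haS : a ∈ S := by
    rintro H ⟨k, hH⟩ ⟨y, hy⟩
    exact (fix_end hN hP hF hC hH hy).1
  have hsg : ∀ H : ℝ ≃o ℝ, (¬ ∃ y, H y = y) → (∀ x, x < H x) ∨ ∀ x, H x < x := by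
    intro H h
    by_contra hcon
    push Not at hcon h
    obtain ⟨⟨x, hx⟩, y, hy⟩ := hcon
    obtain ⟨z, hz⟩ := intermediate_value_univ₂ H.continuous continuous_id hx hy
    exact h z hz
  have main := cone_lemma (lifts φ).subtype (S := S) ⟨a, haS⟩
    (by
      rintro ⟨G, hG⟩ x hx H hH ⟨y, hy⟩
      show H (G x) = G x
      have h1 : G⁻¹ * H * G ∈ lifts φ :=
        (lifts φ).mul_mem ((lifts φ).mul_mem ((lifts φ).inv_mem hG) hH) hG
      have h2 := hx _ h1 ⟨G.symm y, by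
        show G.symm (H (G (G.symm y))) = G.symm y
        rw [G.apply_symm_apply, hy]⟩
      have h3 : G.symm (H (G x)) = x := h2
      rwa [G.symm_apply_eq] at h3)
    (by
      rintro ⟨H, hH⟩
      by_cases h : ∃ y, H y = y
      · exact Or.inl fun x hx => hx H hH h
      · rcases hsg H h with h1 | h1
        · exact Or.inr (Or.inl fun x _ => h1 x)
        · exact Or.inr (Or.inr fun x _ => h1 x))
    (by
      rintro ⟨H, hH⟩ hup ⟨G, hG⟩
      have h1 : ∀ x, x < H x := by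
        have hnf : ¬ ∃ y, H y = y := by
          intro h
          exact (hup a haS).ne' (haS H hH h)
        rcases hsg H hnf with h1 | h1
        · exact h1
        · have h2 : a < H a := hup a haS
          exact absurd h2 (not_lt.2 (h1 a).le)
      obtain ⟨n, hn⟩ := unbounded h1 a (G a)
      exact ⟨n, a, haS, hn⟩)
  obtain ⟨U, hU, -⟩ := hP u
  obtain ⟨V, hV, -⟩ := hP v
  have h1 := main ⟨U, u, hU⟩ ⟨V, v, hV⟩ a haS
  have h2 : (U * V * U⁻¹ * V⁻¹) a = a := h1
  have h3 : IsLift (φ (u * v * u⁻¹ * v⁻¹)) (U * V * U⁻¹ * V⁻¹) := by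
    rw [map_mul, map_mul, map_mul, map_inv, map_inv]
    exact ((hU.mul hV).mul hU.inv).mul hV.inv
  exact h3.fix_coe h2

theorem stb_finite [Group.FG K] (hN : NFS K) (hP : ∀ k, PAn (φ k)) {k0 : K} {F : ℝ ≃o ℝ}
    (hF : IsLift (φ k0) F) {a b : ℝ} (hC : Comp F a b) : (stb φ (a : S1)).FiniteIndex := by
  set P := stb φ (a : S1) with hPdef
  have hcomm : ∀ u v : K, u * v * u⁻¹ * v⁻¹ ∈ P := fun u v => comm_fix hN hP hF hC u v
  have hnorm : P.Normal := by
    constructor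
    intro g hg u
    have h1 := P.mul_mem (hcomm u g) hg
    have h2 : u * g * u⁻¹ * g⁻¹ * g = u * g * u⁻¹ := by group
    rwa [h2] at h1
  let i : CommGroup (K ⧸ P) :=
    { (inferInstance : Group (K ⧸ P)) with
      mul_comm := by
        intro x y
        obtain ⟨u, rfl⟩ := QuotientGroup.mk_surjective x
        obtain ⟨v, rfl⟩ := QuotientGroup.mk_surjective y
        rw [← QuotientGroup.mk_mul, ← QuotientGroup.mk_mul, QuotientGroup.eq]
        have h1 := hcomm v⁻¹ u⁻¹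
        have h2 : v⁻¹ * u⁻¹ * v⁻¹⁻¹ * u⁻¹⁻¹ = (u * v)⁻¹ * (v * u) := by group
        rwa [h2] at h1 }
  have hfg : Group.FG (K ⧸ P) := QuotientGroup.fg P
  have hfin : Finite (K ⧸ P) := by
    apply @CommGroup.finite_of_fg_isMulTorsion _ i hfg
    intro x
    obtain ⟨t, rfl⟩ := QuotientGroup.mk_surjective x
    obtain ⟨n, hn, h⟩ := tors hN hP hF hC t
    rw [isOfFinOrder_iff_pow_eq_one]
    refine ⟨n, hn, ?_⟩
    have h1 : (QuotientGroup.mk (t ^ n) : K ⧸ P) = 1 := (QuotientGroup.eq_one_iff _).2 h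
    exact h1
  exact Subgroup.finiteIndex_of_finite_quotient

theorem stb_comm (hN : NFS K) (hP : ∀ k, PAn (φ k)) {q : S1} (u v : K)
    (hu : u ∈ stb φ q) (hv : v ∈ stb φ q) : φ u * φ v = φ v * φ u := by
  by_contra hcon
  set w : K := u * v * u⁻¹ * v⁻¹ with hw
  have hwP : w ∈ stb φ q := by
    apply Subgroup.mul_mem _ (Subgroup.mul_mem _ (Subgroup.mul_mem _ hu hv) ?_) ?_
    · exact (stb φ q).inv_mem hu
    · exact (stb φ q).inv_mem hv
  obtain ⟨a, -, -, rfl⟩ := exists_rep q 0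
  obtain ⟨W, hW, hWa, -⟩ := (hP w).fixing hwP
  obtain ⟨x, hx⟩ : ∃ x, W x ≠ x := by
    by_contra h
    push Not at h
    apply hcon
    have h1 : φ w = 1 := by
      ext y
      obtain ⟨x, -, -, rfl⟩ := exists_rep y 0
      exact hW.fix_coe (h x)
    rw [hw, map_mul, map_mul, map_mul, map_inv, map_inv, mul_inv_eq_one,
      mul_inv_eq_iff_eq_mul] at h1
    exact h1
  obtain ⟨α, β, hC, h1, h2⟩ := exists_comp hW.1 hWa hx
  have hex : ∀ k : stb φ (a : S1), ∃ H, IsLift (φ k) H ∧ H α = α ∧ H β = β := by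
    rintro ⟨k, hk⟩
    obtain ⟨H, hH, hHa, -⟩ := (hP k).fixing hk
    have := fix_end hN hP hW hC hH hHa
    exact ⟨H, hH, this.1, this.2⟩
  choose L hL hLα hLβ using hex
  let Lh : stb φ (a : S1) →* (ℝ ≃o ℝ) := MonoidHom.mk' L (by
    intro k l
    refine (hL (k * l)).unique (p := α) ?_ (hLα _) ?_
    · show IsLift (φ (k * l)) _
      rw [map_mul]
      exact (hL k).mul (hL l)
    · show L k (L l α) = α
      rw [hLα, hLα])
  have hLh : ∀ k, Lh k = L k := fun _ => rfl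
  have main := cone_lemma Lh (S := Ioo α β) ⟨x, h1, h2⟩
    (by
      intro k y hy
      rw [hLh]
      constructor
      · have := (L k).strictMono hy.1
        rwa [hLα] at this
      · have := (L k).strictMono hy.2
        rwa [hLβ] at this)
    (by
      intro k
      rw [hLh]
      by_cases h : ∀ y ∈ Ioo α β, L k y = y
      · exact Or.inl h
      · push Not at h
        obtain ⟨y, hy, hne⟩ := h
        obtain ⟨α1, β1, hC1, h3, h4⟩ := exists_comp (hL k).1 (hLα k) hne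
        obtain ⟨e1, e2⟩ := comp_eq hN hP (hL k) hW hC1 hC (h3.trans hy.2) (hy.1.trans h4)
        subst e1 e2
        right
        exact hC1.sign)
    (by
      intro k hup l
      rw [hLh] at hup
      have hC1 : Comp (L k) α β := ⟨hC.lt, hLα k, hLβ k, fun y hy => (hup y hy).ne'⟩
      have ht := hC1.conv_b (hL k).1 hup (x := x) ⟨h1, h2⟩
      have h3 : L l x < β := by
        have := (L l).strictMono h2
        rwa [hLβ] at this
      obtain ⟨n, hn⟩ := (ht.eventually_const_lt h3).exists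
      exact ⟨n, x, ⟨h1, h2⟩, hn.le⟩)
    ⟨u, hu⟩ ⟨v, hv⟩ x ⟨h1, h2⟩
  rw [hLh] at main
  have e : L (⟨u, hu⟩ * ⟨v, hv⟩ * ⟨u, hu⟩⁻¹ * ⟨v, hv⟩⁻¹) = W :=
    (hL _).unique (p := α) hW (hLα _) hC.fa
  rw [e] at main
  exact hx main

/-- the main theorem for groups without free semigroups -/
theorem virt [Group.FG K] (hN : NFS K) (hP : ∀ k, PAn (φ k)) :
    ∃ A : Subgroup K, A.FiniteIndex ∧ ∀ x ∈ A, ∀ y ∈ A, φ x * φ y = φ y * φ x := by
  have hor : ∀ k, ∃ F, IsLift (φ k) F := fun k => (hP k).imp fun _ h => h.1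
  by_cases hfree : ∀ k, (Fix (φ k)).Nonempty → φ k = 1
  · exact ⟨⊤, inferInstance, fun x _ y _ => commute_of_free hor hfree x y⟩
  push Not at hfree
  obtain ⟨k, ⟨q, hq⟩, hk1⟩ := hfree
  obtain ⟨p, -, -, rfl⟩ := exists_rep q 0
  obtain ⟨F, hF, hFp, -⟩ := (hP k).fixing hq
  obtain ⟨x, hx⟩ : ∃ x, F x ≠ x := by
    by_contra h
    push Not at h
    apply hk1
    ext y
    obtain ⟨x, -, -, rfl⟩ := exists_rep y 0
    exact hF.fix_coe (h x)
  obtain ⟨a, b, hC, -, -⟩ := exists_comp hF.1 hFp hx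
  exact ⟨stb φ (a : S1), stb_finite hN hP hF hC, fun x hx y hy => stb_comm hN hP x y hx hy⟩

end Pool.Agent.K6.H58.CA
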